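import Pool.Agent.U157.CD.Dec

/-!
# CM fields of degree at most ten
-/

set_option autoImplicit false
set_option linter.unusedSectionVars false

open scoped Classical

namespace Pool.Agent.U157.CD

open Pool.Agent.U157.CC
open Pool.Agent.N770.CP Pool.Agent.H541R3.ART Pool.Agent.W446.AS Pool.Agent.R389
  Pool.Agent.Helper606_LC

variable {G : Type} [Group G] [Fintype G] {X : Type} [Fintype X] [MulAction G X]
  {c : G} (hc : ∀ g, c * g = g * c) (hc2 : c * c = 1) (hc1 : c ≠ 1) (hcf : ∀ x : X, c • x ≠ x)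
  [MulAction.IsPretransitive G X]

include hc hc2 hc1 hcf in
/-- a bad constituent makes the polygon -/
theorem bad_poly {n : ℕ} (hn : Fintype.card X = 2 * n) (hn5 : n ≤ 5) {x : X} {χ : G → ℂ}
    {k : (ZMod (Nat.card G))ˣ} (B : Bd c x χ k) : 4 ≤ n ∧ Poly G X (2 * n) := by
  have P := mkBB hc hc2 hc1 hcf hn hn5 B
  obtain ⟨d1, -, -, hcase⟩ := bad_data hc hc2 hc1 hcf hn hn5 B
  rcases hcase with ⟨rfl, -⟩ | ⟨rfl, ψ, hψ, hψ1, hn1, hn2, hOm⟩
  · refine ⟨le_refl 4, ?_⟩
    have hS : ∀ x z : X, 4 * (S χ x z + S (pw k χ) x z) =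
        if z = x then (Nat.card G : ℂ) else if z = c • x then - (Nat.card G : ℂ) else 0 := by
      intro y z
      obtain ⟨-, -, -, h4⟩ := bad_data hc hc2 hc1 hcf hn hn5 (B.base y)
      rcases h4 with ⟨-, h4⟩ | ⟨h4, -⟩
      · rw [← sum_point hc hc2 hcf y z, h4, Finset.sum_pair B.ne.symm, pw_at_one, d1]
        ring
      · omega
    exact octagon hc2 hcf P hS hn
  · refine ⟨by norm_num, ?_⟩
    obtain ⟨g, hg1, hg2⟩ := exists_cyc hc hc2 hcf (by norm_num : Nat.Prime 5) (by norm_num) hn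
    have C : Cyc c g X 5 := ⟨by norm_num, by norm_num, hn, hg1, hg2⟩
    have hrat : ∀ j : (ZMod (Nat.card G))ˣ, pw j ψ = ψ := by
      intro j
      have h1 : pw j ψ ∈ Om c x := mem_Om.mpr (OC_pw hc hc2 hc1 hψ j)
      have h2 : pw j ψ 1 = 1 := by rw [pw_at_one, hψ1]
      rw [hOm, Finset.mem_insert, Finset.mem_insert, Finset.mem_singleton] at h1
      rcases h1 with h1 | h1 | h1
      · exfalso
        apply B.deg
        rw [← h1, h2]
      · exfalso
        apply B.deg
        rw [← pw_at_one k χ, ← h1, h2]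
      · exact h1
    have hor : ∀ x z : X, ∑ y, DD χ (pw k χ) x y * S ψ y z = 0 := by
      intro y z
      obtain ⟨s, hs, hs0, -⟩ := conv B.oc.irr hψ.irr
      obtain ⟨t, ht, ht0, -⟩ := conv (OC_pw hc hc2 hc1 B.oc k).irr hψ.irr
      have e1 := S_mul (X := X) hs y z
      have e2 := S_mul (X := X) ht y z
      rw [hs0 (Ne.symm hn1), zero_mul] at e1
      rw [ht0 (Ne.symm hn2), zero_mul] at e2
      unfold DD
      simp only [sub_mul, Finset.sum_sub_distrib]
      rw [e1, e2, sub_zero]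
    exact decagon hc hc2 hcf P hψ hψ1 hrat hor C

end Pool.Agent.U157.CD
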