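import Pool.Agent.U157.CD.All

/-!
# The polygons are exceptional
-/

set_option autoImplicit false
set_option linter.unusedSectionVars false

open scoped Classical commutatorElement

namespace Pool.Agent.U157.CD

open Pool.Agent.U157.CC
open Pool.Agent.N770.CP Pool.Agent.H541R3.ART Pool.Agent.W446.AS Pool.Agent.R389
  Pool.Agent.Helper606_LC

/-- `u` acts as a rotation -/
def Rot {G X : Type} [Group G] [MulAction G X] {N : ℕ} (e : ZMod N ≃ X) (u : G) (j : ZMod N) : Prop :=
  ∀ i, u • e i = e (i + j)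

section rot

variable {G : Type} [Group G] {X : Type} [MulAction G X] {N : ℕ} {e : ZMod N ≃ X}

lemma Rot.mul {u v : G} {j l : ZMod N} (hu : Rot e u j) (hv : Rot e v l) : Rot e (u * v) (j + l) := by
  intro i
  rw [mul_smul, hv, hu]
  congr 1
  ring

lemma Rot.one : Rot e (1 : G) 0 := fun i => by rw [one_smul, add_zero]

lemma Rot.pow {u : G} {j : ZMod N} (hu : Rot e u j) (k : ℕ) : Rot e (u ^ k) (k * j) := by
  induction k with
  | zero => rw [pow_zero, Nat.cast_zero, zero_mul]; exact Rot.one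
  | succ k ih =>
    rw [pow_succ]
    have := ih.mul hu
    push_cast
    rw [add_mul, one_mul]
    exact this

lemma Rot.inv {u : G} {j : ZMod N} (hu : Rot e u j) : Rot e u⁻¹ (-j) := by
  intro i
  rw [inv_smul_eq_iff, hu]
  congr 1
  ring

lemma Rot.conj {u h : G} {j : ZMod N} (hu : Rot e u j)
    (hh : ∃ a : ZMod N, (∀ i, h • e i = e (a + i)) ∨ (∀ i, h • e i = e (a - i))) :
    Rot e (h⁻¹ * u * h) j ∨ Rot e (h⁻¹ * u * h) (-j) := by
  obtain ⟨a, h1 | h1⟩ := hh
  · left
    intro i
    rw [mul_smul, mul_smul, inv_smul_eq_iff, h1, h1, hu]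
    congr 1
    ring
  · right
    intro i
    rw [mul_smul, mul_smul, inv_smul_eq_iff, h1, h1, hu]
    congr 1
    ring

end rot

section main

variable {G : Type} [Group G] [Fintype G] {X : Type} [Fintype X] [MulAction G X]
  {c : G} (hc : ∀ g, c * g = g * c) (hc2 : c * c = 1) (hcf : ∀ x : X, c • x ≠ x)
  {n : ℕ} (hn : 4 ≤ n) {e : ZMod (2 * n) ≃ X}
  (he : ∀ g : G, ∃ a : ZMod (2 * n), (∀ i, g • e i = e (a + i)) ∨ (∀ i, g • e i = e (a - i)))
  (he' : ∀ a : ZMod (2 * n), (∃ g : G, ∀ i, g • e i = e (a + i)) ∧ (∃ g : G, ∀ i, g • e i = e (a - i)))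

include hn in
lemma small_ne {m : ℕ} (h0 : 0 < m) (hm : m < 2 * n) : (m : ZMod (2 * n)) ≠ 0 := by
  intro h
  rw [ZMod.natCast_eq_zero_iff] at h
  have := Nat.le_of_dvd h0 h
  omega

include hn in
lemma half_eq {a : ZMod (2 * n)} (h2 : a + a = 0) (h0 : a ≠ 0) : a = n := by
  have : NeZero (2 * n) := ⟨by omega⟩
  have hv := ZMod.val_lt a
  have h1 : (((a.val + a.val : ℕ) : ZMod (2 * n))) = 0 := by
    rw [Nat.cast_add, ZMod.natCast_val, ZMod.cast_id', id, h2]
  rw [ZMod.natCast_eq_zero_iff] at h1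
  obtain ⟨t, ht⟩ := h1
  have h3 : a.val ≠ 0 := by rwa [Ne, ZMod.val_eq_zero]
  have h4 : t = 1 := by
    have h5 : t < 2 := by
      by_contra h6
      push Not at h6
      have : 2 * n * 2 ≤ 2 * n * t := Nat.mul_le_mul_left _ h6
      omega
    have h6 : t ≠ 0 := by
      rintro rfl
      omega
    omega
  rw [h4, mul_one] at ht
  have h5 : a.val = n := by omega
  have h6 : (a.val : ZMod (2 * n)) = a := by rw [ZMod.natCast_val, ZMod.cast_id', id]
  exact h6.symm.trans (congrArg _ h5)

include hc hc2 hcf hn he he' in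
lemma c_rot : Rot e c (n : ZMod (2 * n)) := by
  obtain ⟨a, h1 | h1⟩ := he c
  · have h2 : a + a = 0 := by
      have h3 : c • c • e 0 = e 0 := by rw [← mul_smul, hc2, one_smul]
      rw [h1, h1] at h3
      have h4 := e.injective h3
      linear_combination h4
    have h3 : a ≠ 0 := by
      rintro rfl
      apply hcf (e 0)
      rw [h1, zero_add]
    have h4 := half_eq hn h2 h3
    intro i
    rw [h1, h4, add_comm]
  · exfalso
    obtain ⟨⟨r, hr⟩, -⟩ := he' 1
    have h2 : c • r • e 0 = r • c • e 0 := by rw [← mul_smul, hc, mul_smul]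
    rw [hr, h1, h1, hr] at h2
    have h3 := e.injective h2
    apply small_ne hn (m := 2) (by norm_num) (by omega)
    push_cast
    linear_combination -h3

include hn in
lemma pm_one {j : ZMod (2 * n)} (h : j = 1 ∨ j = -1) (m : ℕ) (h3 : 2 < m) (h4 : m + 1 < 2 * n) :
    j ≠ m := by
  rcases h with rfl | rfl
  · intro h
    apply small_ne hn (m := m - 1) (by omega) (by omega)
    rw [Nat.cast_sub (by omega), Nat.cast_one, ← h, sub_self]
  · intro h
    apply small_ne hn (m := m + 1) (by omega) (by omega)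
    rw [Nat.cast_add, Nat.cast_one, ← h]
    ring

include hc hc2 hcf hn he he' in
/-- the value at a rotation by one step is positive -/
lemma pos_one {u : G} (hu : Rot e u 1) :
    0 < (dq c (e 0) (e 1) + dq c (e 1) (e 0) : G → ℚ) u := by
  have hcr := c_rot hc hc2 hcf hn he he'
  have h1 : 0 < cnt (e 0) (e 1) u := by
    unfold cnt
    rw [Finset.card_pos]
    refine ⟨1, ?_⟩
    rw [Finset.mem_filter]
    refine ⟨Finset.mem_univ _, ?_⟩
    rw [inv_one, one_mul, mul_one, hu, zero_add]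
  have h2 : cnt (e 0) (c • e 1) u = 0 := by
    unfold cnt
    rw [Finset.card_eq_zero, Finset.filter_eq_empty_iff]
    intro h _ h3
    rw [hcr] at h3
    rcases hu.conj (he h) with h4 | h4
    · rw [h4] at h3
      have h5 := e.injective h3
      apply small_ne hn (m := n) (by omega) (by omega)
      linear_combination -h5
    · rw [h4] at h3
      have h5 := e.injective h3
      apply small_ne hn (m := n + 2) (by omega) (by omega)
      push_cast
      linear_combination -h5
  have h3 : cnt (e 1) (c • e 0) u = 0 := by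
    unfold cnt
    rw [Finset.card_eq_zero, Finset.filter_eq_empty_iff]
    intro h _ h3
    rw [hcr] at h3
    rcases hu.conj (he h) with h4 | h4
    · rw [h4] at h3
      have h5 := e.injective h3
      apply small_ne hn (m := n - 2) (by omega) (by omega)
      rw [Nat.cast_sub (by omega)]
      push_cast
      linear_combination -h5
    · rw [h4] at h3
      have h5 := e.injective h3
      apply small_ne hn (m := n) (by omega) (by omega)
      linear_combination -h5
  rw [Pi.add_apply]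
  unfold dq
  rw [h2, h3]
  have h4 : (0 : ℚ) < (cnt (e 0) (e 1) u : ℚ) := by exact_mod_cast h1
  have h5 : (0 : ℚ) ≤ (cnt (e 1) (e 0) u : ℚ) := Nat.cast_nonneg _
  push_cast
  linarith

include hc hc2 hcf hn he he' in
/-- the value at the other rotations is not positive -/
lemma nonpos {u : G} {j : ZMod (2 * n)} (hu : Rot e u j) (h1 : j ≠ 1) (h2 : j ≠ -1) :
    (dq c (e 0) (e 1) + dq c (e 1) (e 0) : G → ℚ) u ≤ 0 := by
  have h3 : cnt (e 0) (e 1) u = 0 := by
    unfold cnt
    rw [Finset.card_eq_zero, Finset.filter_eq_empty_iff]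
    intro h _ h3
    rcases hu.conj (he h) with h4 | h4
    · rw [h4] at h3
      exact h1 (by linear_combination e.injective h3)
    · rw [h4] at h3
      exact h2 (by linear_combination -e.injective h3)
  have h4 : cnt (e 1) (e 0) u = 0 := by
    unfold cnt
    rw [Finset.card_eq_zero, Finset.filter_eq_empty_iff]
    intro h _ h3
    rcases hu.conj (he h) with h4 | h4
    · rw [h4] at h3
      exact h2 (by linear_combination e.injective h3)
    · rw [h4] at h3
      exact h1 (by linear_combination -e.injective h3)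
  rw [Pi.add_apply]
  unfold dq
  rw [h3, h4]
  have h5 : (0 : ℚ) ≤ (cnt (e 0) (c • e 1) u : ℚ) := Nat.cast_nonneg _
  have h6 : (0 : ℚ) ≤ (cnt (e 1) (c • e 0) u : ℚ) := Nat.cast_nonneg _
  push_cast
  linarith

include hn in
/-- a unit different from `1` and `-1` -/
lemma exists_unit' : ∃ κ : (ZMod (2 * n))ˣ, (κ : ZMod (2 * n)) ≠ 1 ∧ (κ : ZMod (2 * n)) ≠ -1 := by
  rcases Nat.even_or_odd n with h | h
  · have hcop : (n + 1).Coprime (2 * n) := by
      rw [Nat.coprime_mul_iff_right]
      refine ⟨?_, by simp⟩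
      exact Nat.coprime_two_right.mpr h.add_one
    refine ⟨ZMod.unitOfCoprime _ hcop, fun h1 => ?_, fun h1 => ?_⟩
    · rw [ZMod.coe_unitOfCoprime] at h1
      apply small_ne hn (m := n) (by omega) (by omega)
      push_cast at h1
      linear_combination h1
    · rw [ZMod.coe_unitOfCoprime] at h1
      apply small_ne hn (m := n + 2) (by omega) (by omega)
      push_cast at h1 ⊢
      linear_combination h1
  · have hcop : (n + 2).Coprime (2 * n) := by
      rw [Nat.coprime_mul_iff_right]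
      constructor
      · exact Nat.coprime_two_right.mpr (h.add_even even_two)
      · have h2 : (2 + n).Coprime n := by
          rw [Nat.coprime_add_self_left]
          exact Nat.coprime_two_left.mpr h
        rwa [add_comm] at h2
    refine ⟨ZMod.unitOfCoprime _ hcop, fun h1 => ?_, fun h1 => ?_⟩
    · rw [ZMod.coe_unitOfCoprime] at h1
      apply small_ne hn (m := n + 1) (by omega) (by omega)
      push_cast at h1 ⊢
      linear_combination h1
    · rw [ZMod.coe_unitOfCoprime] at h1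
      apply small_ne hn (m := n + 3) (by omega) (by omega)
      push_cast at h1 ⊢
      linear_combination h1

include hc hc2 hcf hn he he' in
theorem poly_fail_aux (hdvd : 2 * n ∣ Nat.card G) :
    ¬ ∀ j : ℕ, j.Coprime (Nat.card G) → ∀ g : G, ∀ z ∈ commutator G,
      (dq c (e 0) (e 1) + dq c (e 1) (e 0) : G → ℚ) ((g * z) ^ j) -
        (dq c (e 0) (e 1) + dq c (e 1) (e 0) : G → ℚ) (g * z) =
        (dq c (e 0) (e 1) + dq c (e 1) (e 0) : G → ℚ) (g ^ j) -
          (dq c (e 0) (e 1) + dq c (e 1) (e 0) : G → ℚ) g := by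
  intro H
  have : NeZero (2 * n) := ⟨by omega⟩
  have : NeZero (Nat.card G) := ⟨Nat.card_pos.ne'⟩
  obtain ⟨κ, h1, h2⟩ := exists_unit' hn
  obtain ⟨K, hK⟩ := ZMod.unitsMap_surjective hdvd κ
  obtain ⟨k, hk⟩ : ∃ k : ℕ, k = (K : ZMod (Nat.card G)).val := ⟨_, rfl⟩
  have hkc : k.Coprime (Nat.card G) := by rw [hk]; exact ZMod.val_coe_unit_coprime K
  have hkκ : (k : ZMod (2 * n)) = κ := by
    rw [← hK, hk, ZMod.unitsMap_val, ZMod.natCast_val]
  -- the inverse
  obtain ⟨m, hm⟩ : ∃ m : ℕ, 1 + 2 * (m : ZMod (2 * n)) = ((κ⁻¹ : (ZMod (2 * n))ˣ) : ZMod (2 * n)) := by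
    have h3 : ((κ⁻¹ : (ZMod (2 * n))ˣ) : ZMod (2 * n)).val.Coprime (2 * n) :=
      ZMod.val_coe_unit_coprime κ⁻¹
    have h4 : Odd ((κ⁻¹ : (ZMod (2 * n))ˣ) : ZMod (2 * n)).val := by
      rw [← Nat.coprime_two_right]
      exact (Nat.coprime_mul_iff_right.mp h3).1
    obtain ⟨m, hm⟩ := h4
    refine ⟨m, ?_⟩
    have h5 : (((((κ⁻¹ : (ZMod (2 * n))ˣ) : ZMod (2 * n)).val : ℕ)) : ZMod (2 * n)) =
        ((κ⁻¹ : (ZMod (2 * n))ˣ) : ZMod (2 * n)) := by
      rw [ZMod.natCast_val, ZMod.cast_id', id]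
    rw [← h5, hm]
    push_cast
    ring
  obtain ⟨⟨r, hr⟩, -⟩ := he' 1
  obtain ⟨-, ⟨t, ht⟩⟩ := he' 0
  have hr1 : Rot e r 1 := fun i => by rw [hr, add_comm]
  have hz1 : ⁅r ^ m, t⁆ ∈ commutator G := by
    rw [commutator_def]
    exact Subgroup.commutator_mem_commutator (Subgroup.mem_top _) (Subgroup.mem_top _)
  have hz2 : Rot e ⁅r ^ m, t⁆ (2 * m) := by
    have e1 : Rot e (r ^ m) m := by have := hr1.pow m; rwa [mul_one] at this
    have e2 : Rot e (t * (r ^ m)⁻¹ * t⁻¹) m := by
      intro i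
      have e3 : t⁻¹ • e i = e (-i) := by
        rw [inv_smul_eq_iff, ht]
        congr 1
        ring
      rw [mul_smul, e3, mul_smul, e1.inv, ht]
      congr 1
      ring
    have e4 := e1.mul e2
    have e5 : ⁅r ^ m, t⁆ = r ^ m * (t * (r ^ m)⁻¹ * t⁻¹) := by
      rw [commutatorElement_def]
      group
    rw [e5]
    intro i
    rw [e4]
    congr 1
    ring
  have e1 : Rot e (r * ⁅r ^ m, t⁆) ((κ⁻¹ : (ZMod (2 * n))ˣ) : ZMod (2 * n)) := by
    rw [← hm]
    exact hr1.mul hz2
  have e2 : Rot e ((r * ⁅r ^ m, t⁆) ^ k) 1 := by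
    have := e1.pow k
    rwa [hkκ, Units.mul_inv] at this
  have e3 : Rot e (r ^ k) (κ : ZMod (2 * n)) := by
    have := hr1.pow k
    rwa [hkκ, mul_one] at this
  have f1 := pos_one hc hc2 hcf hn he he' hr1
  have f2 := pos_one hc hc2 hcf hn he he' e2
  have f3 := nonpos hc hc2 hcf hn he he' e3 h1 h2
  have h3 : ((κ⁻¹ : (ZMod (2 * n))ˣ) : ZMod (2 * n)) ≠ 1 := by
    intro h
    apply h1
    have := Units.mul_inv κ
    rwa [h, mul_one] at this
  have h4 : ((κ⁻¹ : (ZMod (2 * n))ˣ) : ZMod (2 * n)) ≠ -1 := by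
    intro h
    apply h2
    have := Units.mul_inv κ
    rw [h] at this
    linear_combination -this
  have f4 := nonpos hc hc2 hcf hn he he' e1 h3 h4
  have := H k hkc r _ hz1
  linarith

end main

section fin

variable {G : Type} [Group G] [Fintype G] {X : Type} [Fintype X] [MulAction G X]
  {c : G} (hc : ∀ g, c * g = g * c) (hc2 : c * c = 1) (hc1 : c ≠ 1) (hcf : ∀ x : X, c • x ≠ x)
  [MulAction.IsPretransitive G X]

include hc hc2 hc1 hcf in
/-- the polygons are exceptional -/
theorem poly_fail {n : ℕ} (hn : 4 ≤ n) (hP : Poly G X (2 * n)) (x : X) :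
    ∃ (χ : G → ℂ) (k : (ZMod (Nat.card G))ˣ), Bd c x χ k := by
  obtain ⟨e, he, he'⟩ := hP
  have : NeZero (2 * n) := ⟨by omega⟩
  have hdvd : 2 * n ∣ Nat.card G := by
    have h1 := card_orbit (G := G) x
    have h2 : Fintype.card X = 2 * n := by
      rw [← Fintype.card_congr e, ZMod.card]
    rw [h2] at h1
    have h3 : Nat.card G = 2 * n * Nat.card (MulAction.stabilizer G x) := by exact_mod_cast h1
    rw [h3]
    exact Dvd.intro _ rfl
  by_contra hcon
  push Not at hcon
  refine poly_fail_aux hc hc2 hcf hn he he' hdvd ?_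
  refine (grp_four hc hc2 hc1 x).mpr ?_ (e 0) (e 1)
  intro d ρ hρ hd
  have h1 := (all_irr hc x (fun χ => χ 1 ≠ 1 → QuadVal χ)).mp (fun χ h1 h2 h3 h4 => by
    refine (quad_iff h1).mp fun k => ?_
    by_contra h5
    rw [not_or] at h5
    exact hcon χ k ⟨⟨h1, h2, h3⟩, h4, h5.1, h5.2⟩) d ρ hρ
  apply h1
  rw [char_one]
  exact_mod_cast hd

end fin

end Pool.Agent.U157.CD
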