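import Pool.Agent.U157.CD.Oct

/-!
# CM fields of degree ten
-/

set_option autoImplicit false
set_option linter.unusedSectionVars false

namespace Pool.Agent.U157.CD

lemma nbr10 : ∀ i j : ZMod 10, (∀ l : ZMod 10, (l = i + 1 ∨ l = i - 1) ↔ (l = j + 1 ∨ l = j - 1)) →
    i = j := by decide

lemma q0 : ¬ ((0 : ZMod 10) = 1 ∨ (0 : ZMod 10) = 9) := by decide
lemma q1 : ((1 : ZMod 10) = 1 ∨ (1 : ZMod 10) = 9) := by decide
lemma q2 : ¬ ((2 : ZMod 10) = 1 ∨ (2 : ZMod 10) = 9) := by decide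
lemma q3 : ¬ ((3 : ZMod 10) = 1 ∨ (3 : ZMod 10) = 9) := by decide
lemma q4 : ¬ ((4 : ZMod 10) = 1 ∨ (4 : ZMod 10) = 9) := by decide
lemma q5 : ¬ ((5 : ZMod 10) = 1 ∨ (5 : ZMod 10) = 9) := by decide
lemma q6 : ¬ ((6 : ZMod 10) = 1 ∨ (6 : ZMod 10) = 9) := by decide
lemma q7 : ¬ ((7 : ZMod 10) = 1 ∨ (7 : ZMod 10) = 9) := by decide
lemma q8 : ¬ ((8 : ZMod 10) = 1 ∨ (8 : ZMod 10) = 9) := by decide
lemma q9 : ((9 : ZMod 10) = 1 ∨ (9 : ZMod 10) = 9) := by decide

lemma one10 : ∀ i j : ZMod 10, (j - i = 1 ∨ j - i = 9) ↔ (j = i + 1 ∨ j = i - 1) := by decide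

open scoped Classical
open Pool.Agent.U157.CC
open Pool.Agent.N770.CP Pool.Agent.H541R3.ART Pool.Agent.W446.AS Pool.Agent.R389
  Pool.Agent.Helper606_LC

variable {G : Type} [Group G] [Fintype G] {X : Type} [Fintype X] [MulAction G X]
  {c : G} (hc : ∀ g, c * g = g * c) (hc2 : c * c = 1) (hc1 : c ≠ 1) (hcf : ∀ x : X, c • x ≠ x)
  [MulAction.IsPretransitive G X]

/-- the translate by an element on which a character of degree one is trivial -/
lemma lin_shift {ψ : G → ℂ} (hψ : ψ ∈ Irr G) (h1 : ψ 1 = 1) {g : G} (hg : ψ g = 1) (x y : X) :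
    S ψ x (g • y) = S ψ x y := by
  have hgi : ψ g⁻¹ = 1 := by
    have h2 := lin_mul hψ h1 g g⁻¹
    rw [mul_inv_cancel, h1, hg, one_mul] at h2
    exact h2.symm
  unfold S
  rw [← Equiv.sum_comp (Equiv.mulLeft g)]
  refine Finset.sum_congr rfl fun a _ => ?_
  change (if (g * a) • x = g • y then ψ (g * a)⁻¹ else 0) = _
  have e1 : ψ (g * a)⁻¹ = ψ a⁻¹ := by
    rw [mul_inv_rev, lin_mul hψ h1, hgi, mul_one]
  rw [e1, mul_smul]
  by_cases h : a • x = y
  · rw [if_pos h, if_pos (by rw [h])]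
  · rw [if_neg h, if_neg (fun h' => h (MulAction.injective g h'))]

include hc hc2 hcf in
/-- the decagon -/
theorem decagon {χ χ' ψ : G → ℂ} (P : BB c X χ χ') {x0 : X} (hψ : OC c x0 ψ) (hψ1 : ψ 1 = 1)
    (hrat : ∀ k : (ZMod (Nat.card G))ˣ, pw k ψ = ψ)
    (hor : ∀ x z : X, ∑ y, DD χ χ' x y * S ψ y z = 0) {g : G} (C : Cyc c g X 5) :
    Poly G X 10 := by
  have hψg : ψ g = 1 := by
    have h1 : ψ (g ^ 5) = 1 := lin_triv hψ hψ1 (C.per x0)
    have h2 : ∀ n : ℕ, ψ (g ^ n) = ψ g ^ n := by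
      intro n
      induction n with
      | zero => rw [pow_zero, pow_zero, hψ1]
      | succ n ih => rw [pow_succ, pow_succ, lin_mul hψ.irr hψ1, ih]
    obtain ⟨q, hq⟩ := (rat_iff hψ.irr).mp hrat g
    rw [h2, hq] at h1
    have h3 : q ^ 5 = (1 : ℚ) ^ 5 := by rw [one_pow]; exact_mod_cast h1
    have h4 : q = 1 := (Odd.strictMono_pow (R := ℚ) (n := 5) (by decide)).injective h3
    rw [hq, h4, Rat.cast_one]
  have kn := kn_S (X := X) hc hc2 hψ.irr hψ.odd
  obtain ⟨s, hs⟩ : ∃ s : ℂ, s = Nat.card (MulAction.stabilizer G x0) := ⟨_, rfl⟩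
  have hs0 : s ≠ 0 := by rw [hs]; exact_mod_cast Nat.card_pos.ne'
  have hss : ∀ x : X, S ψ x x = s := by
    intro x
    obtain ⟨u, rfl⟩ := MulAction.exists_smul_eq G x0 x
    rw [kn.inv, lin_self hψ hψ1, hs]
  have hsg : ∀ (n : ℕ) (x : X), S ψ x (g ^ n • x) = s := by
    intro n
    induction n with
    | zero => intro x; rw [pow_zero, one_smul, hss]
    | succ n ih => intro x; rw [pow_succ', mul_smul, lin_shift hψ.irr hψ1 hψg, ih]
  -- the values
  obtain ⟨dd, hdd⟩ : ∃ dd : ℕ → ℂ, ∀ n, dd n = DD χ χ' x0 (g ^ n • x0) := ⟨_, fun _ => rfl⟩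
  have hdc : ∀ n, DD χ χ' x0 (c • g ^ n • x0) = - dd n := fun n => by rw [P.kn.odd, hdd]
  have d0 : dd 0 = 0 := by rw [hdd, pow_zero, one_smul, P.self]
  have hrev : ∀ i j : ℕ, i + j = 5 → dd i = dd j := by
    intro i j hij
    rw [hdd, hdd]
    have h1 : DD χ χ' x0 (g ^ i • x0) = DD χ χ' (g ^ j • x0) (g ^ j • g ^ i • x0) :=
      (P.kn.inv _ _ _).symm
    rw [h1, ← mul_smul, ← pow_add, add_comm j i, hij, C.per, P.sym]
  have d4 : dd 4 = dd 1 := hrev 4 1 rfl
  have d3 : dd 3 = dd 2 := hrev 3 2 rfl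
  have hfr : Fr c (fun i : Fin 5 => g ^ (i : ℕ) • x0) := by
    intro i j hij
    refine ⟨fun h => hij ?_, pow_ne hc hc2 hcf C _ _⟩
    have h1 := pow_eq C h
    unfold Nat.ModEq at h1
    rw [Nat.mod_eq_of_lt i.2, Nat.mod_eq_of_lt j.2] at h1
    exact Fin.ext h1
  have hsum : dd 2 = - dd 1 := by
    have h1 := hor x0 x0
    rw [P.kn.sum hc2 hcf kn C.card hfr, Fin.sum_univ_five] at h1
    have h2 : ∀ n : ℕ, S ψ (g ^ n • x0) x0 = s := by
      intro n
      have h3 : S ψ (g ^ n • x0) x0 = S ψ (g ^ (4 * n) • g ^ n • x0) (g ^ (4 * n) • x0) :=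
        (kn.inv _ _ _).symm
      have h4 : g ^ (4 * n) • g ^ n • x0 = x0 := by
        rw [← mul_smul, ← pow_add, pow_mod C, show 4 * n + n = 5 * n by ring, Nat.mul_mod_right,
          pow_zero, one_smul]
      rw [h3, h4, hsg]
    have h3 : 2 * (dd 0 * s + dd 1 * s + dd 2 * s + dd 3 * s + dd 4 * s) = 0 := by
      rw [← h1]
      simp only [hdd]
      congr 1
      refine congrArg₂ _ (congrArg₂ _ (congrArg₂ _ (congrArg₂ _ ?_ ?_) ?_) ?_) ?_
      · exact congrArg₂ _ rfl (h2 0).symm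
      · exact congrArg₂ _ rfl (h2 1).symm
      · exact congrArg₂ _ rfl (h2 2).symm
      · exact congrArg₂ _ rfl (h2 3).symm
      · exact congrArg₂ _ rfl (h2 4).symm
    rw [d0, d3, d4] at h3
    have h4 : s * (dd 2 + dd 1) = 0 := by linear_combination h3 / 4
    linear_combination (mul_eq_zero.mp h4).resolve_left hs0
  obtain ⟨t, ht⟩ : ∃ t, t = dd 1 := ⟨_, rfl⟩
  have ht0 : t ≠ 0 := by
    intro h0
    rw [ht] at h0
    obtain ⟨y, hy⟩ := P.non x0
    apply hy
    have hall : ∀ i < 5, dd i = 0 := by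
      intro i hi
      interval_cases i
      · exact d0
      · exact h0
      · rw [hsum, h0, neg_zero]
      · rw [d3, hsum, h0, neg_zero]
      · rw [d4, h0]
    obtain ⟨i, hi, h | h⟩ := all_pts hc hc2 hcf C x0 y
    · rw [h, ← hdd, hall i hi]
    · rw [h, hdc, hall i hi, neg_zero]
  -- the rotation
  obtain ⟨r, hr⟩ : ∃ r : G, r = c * g := ⟨_, rfl⟩
  have hrp : ∀ (n : ℕ) (y : X), r ^ n • y = if Even n then g ^ (n % 5) • y else c • g ^ (n % 5) • y := by
    intro n y
    have h1 : r ^ n = c ^ n * g ^ n := by rw [hr]; exact Commute.mul_pow (hc g) n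
    rw [h1, mul_smul, pow_mod C y n]
    rcases Nat.even_or_odd n with h2 | h2
    · rw [if_pos h2]
      obtain ⟨m, rfl⟩ := h2
      rw [← two_mul, pow_mul, pow_two, hc2, one_pow, one_smul]
    · rw [if_neg (Nat.not_even_iff_odd.mpr h2)]
      obtain ⟨m, rfl⟩ := h2
      rw [pow_succ, pow_mul, pow_two, hc2, one_pow, one_mul]
  have hr10 : ∀ y : X, r ^ 10 • y = y := by
    intro y
    rw [hrp, if_pos (by decide)]
    exact (congrArg (fun z : G => z • y) (pow_zero g)).trans (one_smul G y)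
  have hrmod : ∀ (n : ℕ) (y : X), r ^ (n % 10) • y = r ^ n • y := by
    intro n y
    conv_rhs => rw [← Nat.mod_add_div n 10, pow_add, mul_smul, pow_mul]
    congr 1
    induction n / 10 with
    | zero => rw [pow_zero, one_smul]
    | succ m ih => rw [pow_succ, mul_smul, hr10]; exact ih
  let e : ZMod 10 → X := fun i => r ^ i.val • x0
  have hadd : ∀ i j : ZMod 10, e (i + j) = r ^ i.val • e j := by
    intro i j
    change r ^ (i + j).val • x0 = r ^ i.val • r ^ j.val • x0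
    rw [ZMod.val_add, hrmod, pow_add, mul_smul]
  have hD : ∀ i j : ZMod 10, DD χ χ' (e i) (e j) = DD χ χ' x0 (e (j - i)) := by
    intro i j
    have h1 : e j = r ^ i.val • e (j - i) := by rw [← hadd]; congr 1; ring
    rw [h1]
    exact P.kn.inv _ _ _
  have hL : ∀ i j : ZMod 10, S ψ (e i) (e j) = S ψ x0 (e (j - i)) := by
    intro i j
    have h1 : e j = r ^ i.val • e (j - i) := by rw [← hadd]; congr 1; ring
    rw [h1]
    exact kn.inv _ _ _
  have hne : (-s : ℂ) ≠ s := fun h => hs0 (by linear_combination -h / 2)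
  have htne : (t : ℂ) ≠ -t := fun h => ht0 (by linear_combination h / 2)
  have h0ne : (0 : ℂ) ≠ -t := fun h => ht0 (by linear_combination h)
  have hcase : ∀ m : ZMod 10, (DD χ χ' x0 (e m) = -t ∧ S ψ x0 (e m) = -s) ↔ (m = 1 ∨ m = 9) := by
    have ev : ∀ n : ℕ, Even n → DD χ χ' x0 (r ^ n • x0) = dd (n % 5) ∧ S ψ x0 (r ^ n • x0) = s := by
      intro n hn
      rw [hrp, if_pos hn, hdd]
      exact ⟨rfl, hsg _ _⟩
    have od : ∀ n : ℕ, ¬ Even n → DD χ χ' x0 (r ^ n • x0) = - dd (n % 5) ∧ S ψ x0 (r ^ n • x0) = -s := by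
      intro n hn
      rw [hrp, if_neg hn, hdc, kn.odd, hsg]
      exact ⟨rfl, rfl⟩
    intro m
    fin_cases m
    · have h := ev 0 (by decide)
      refine iff_of_false (fun h' => ?_) q0
      exact hne (h'.2.symm.trans h.2)
    · have h := od 1 (by decide)
      refine iff_of_true ⟨?_, h.2⟩ q1
      exact h.1.trans (by rw [ht])
    · have h := ev 2 (by decide)
      refine iff_of_false (fun h' => ?_) q2
      exact hne (h'.2.symm.trans h.2)
    · have h := od 3 (by decide)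
      refine iff_of_false (fun h' => ?_) q3
      have h2 : -t = - dd 3 := h'.1.symm.trans h.1
      rw [d3, hsum, neg_neg, ← ht] at h2
      exact htne h2.symm
    · have h := ev 4 (by decide)
      refine iff_of_false (fun h' => ?_) q4
      exact hne (h'.2.symm.trans h.2)
    · have h := od 5 (by decide)
      refine iff_of_false (fun h' => ?_) q5
      have h2 : -t = - dd 0 := h'.1.symm.trans h.1
      rw [d0, neg_zero] at h2
      exact h0ne h2.symm
    · have h := ev 6 (by decide)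
      refine iff_of_false (fun h' => ?_) q6
      exact hne (h'.2.symm.trans h.2)
    · have h := od 7 (by decide)
      refine iff_of_false (fun h' => ?_) q7
      have h2 : -t = - dd 2 := h'.1.symm.trans h.1
      rw [hsum, neg_neg, ← ht] at h2
      exact htne h2.symm
    · have h := ev 8 (by decide)
      refine iff_of_false (fun h' => ?_) q8
      exact hne (h'.2.symm.trans h.2)
    · have h := od 9 (by decide)
      refine iff_of_true ⟨?_, h.2⟩ q9
      exact h.1.trans (by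
        change - dd 4 = -t
        rw [d4, ht])
  have hR : ∀ i j : ZMod 10, (DD χ χ' (e i) (e j) = -t ∧ S ψ (e i) (e j) = -s) ↔
      (j = i + 1 ∨ j = i - 1) := by
    intro i j
    rw [hD, hL, hcase, one10]
  have hinj : Function.Injective e := by
    intro i j hij
    have h5 : ∀ l : ZMod 10, (l = i + 1 ∨ l = i - 1) ↔ (l = j + 1 ∨ l = j - 1) := by
      intro l
      rw [← hR, ← hR, hij]
    exact nbr10 i j h5
  have hbij : Function.Bijective e := by
    rw [Fintype.bijective_iff_injective_and_card]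
    exact ⟨hinj, by rw [C.card]; rfl⟩
  exact poly_of_adj (by norm_num) (Equiv.ofBijective e hbij)
    (fun x y => DD χ χ' x y = -t ∧ S ψ x y = -s)
    (fun g x y hxy => by rw [P.kn.inv, kn.inv]; exact hxy) (fun i j => hR i j) (P.move _)

end Pool.Agent.U157.CD
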