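import Pool.Agent.U157.CC.Prime7

/-!
# Degrees and multiplicities of the odd constituents
-/

set_option autoImplicit false
set_option linter.unusedSectionVars false

namespace Pool.Agent.U157.CD

open scoped Classical
open Pool.Agent.U157.CC
open Pool.Agent.N770.CP Pool.Agent.H541R3.ART Pool.Agent.W446.AS Pool.Agent.R389
  Pool.Agent.Helper606_LC

variable {G : Type} [Group G] [Fintype G] {X : Type} [Fintype X] [MulAction G X]
  {c : G} (hc : ∀ g, c * g = g * c) (hc2 : c * c = 1) (hc1 : c ≠ 1) (hcf : ∀ x : X, c • x ≠ x)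
  [MulAction.IsPretransitive G X]

include hc hc2 hcf in
/-- the expansion over the odd constituents -/
lemma sum_point (x z : X) : ∑ χ ∈ Om c x, 2 * S χ x z * χ 1 =
    if z = x then (Nat.card G : ℂ) else if z = c • x then - (Nat.card G : ℂ) else 0 := by
  rw [← sum_one hc hc2 hcf x z]
  unfold Om
  rw [Finset.sum_filter]
  refine Finset.sum_congr rfl fun ψ hψ => ?_
  have hψ' := mem_irrF.mp hψ
  rcases even_or_odd hc hc2 hψ' with he | ho
  · rw [pr_dl_even hc hc2 hψ' he, zero_mul]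
    split_ifs with h
    · have h1 := he 1
      have h2 := h.odd 1
      rw [h1] at h2
      have h3 : ψ 1 = 0 := by linear_combination h2 / 2
      rw [h3, mul_zero]
    · rfl
  · rw [pr_dl_odd hc hc2 hψ' ho]
    split_ifs with h
    · rfl
    · have h0 : S ψ x x = 0 := by
        by_contra h0
        exact h ⟨hψ', ho, h0⟩
      rw [S_zero hψ' h0, mul_zero, zero_mul]

include hc hc2 hcf in
/-- degrees and multiplicities -/
lemma degs {n : ℕ} (hn : Fintype.card X = 2 * n) (x : X) : ∃ M D : (G → ℂ) → ℕ,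
    (∀ χ, OC c x χ → S χ x x = (Nat.card (MulAction.stabilizer G x) : ℂ) * M χ ∧ χ 1 = D χ ∧
      1 ≤ M χ ∧ 1 ≤ D χ) ∧ ∑ χ ∈ Om c x, M χ * D χ = n := by
  have hex : ∀ χ : G → ℂ, ∃ m d : ℕ, OC c x χ →
      S χ x x = (Nat.card (MulAction.stabilizer G x) : ℂ) * m ∧ χ 1 = d ∧ 1 ≤ m ∧ 1 ≤ d := by
    intro χ
    by_cases h : OC c x χ
    · obtain ⟨m, hm⟩ := S_self h.irr x
      obtain ⟨d, hd, hd1⟩ := irr_deg_pos h.irr
      refine ⟨m, d, fun _ => ⟨hm, hd1, ?_, hd⟩⟩
      rcases Nat.eq_zero_or_pos m with h0 | h0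
      · exfalso
        apply h.occ
        rw [hm, h0, Nat.cast_zero, mul_zero]
      · exact h0
    · exact ⟨0, 0, fun h' => absurd h' h⟩
  choose M D hMD using hex
  refine ⟨M, D, hMD, ?_⟩
  have h1 := sum_point hc hc2 hcf x x
  rw [if_pos rfl, card_orbit (G := G) x, hn] at h1
  have hG0 : (Nat.card (MulAction.stabilizer G x) : ℂ) ≠ 0 := by exact_mod_cast Nat.card_pos.ne'
  have h2 : ∑ χ ∈ Om c x, 2 * S χ x x * χ 1 =
      2 * Nat.card (MulAction.stabilizer G x) * ((∑ χ ∈ Om c x, M χ * D χ : ℕ) : ℂ) := by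
    push_cast
    rw [Finset.mul_sum]
    refine Finset.sum_congr rfl fun χ hχ => ?_
    obtain ⟨e1, e2, -, -⟩ := hMD χ (mem_Om.mp hχ)
    rw [e1, e2]
    ring
  rw [h2] at h1
  have h3 : ((∑ χ ∈ Om c x, M χ * D χ : ℕ) : ℂ) = (n : ℂ) := by
    apply mul_left_cancel₀ (mul_ne_zero two_ne_zero hG0)
    rw [h1]
    push_cast
    ring
  exact_mod_cast h3

/-- a constituent for which the criterion fails -/
structure Bd (c : G) (x : X) (χ : G → ℂ) (k : (ZMod (Nat.card G))ˣ) : Prop where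
  oc : OC c x χ
  deg : χ 1 ≠ 1
  ne : pw k χ ≠ χ
  nbar : pw k χ ≠ bar χ

include hc hc2 hc1 hcf in
/-- what the existence of a bad constituent means in small dimension -/
theorem bad_data {n : ℕ} (hn : Fintype.card X = 2 * n) (hn5 : n ≤ 5) {x : X} {χ : G → ℂ}
    {k : (ZMod (Nat.card G))ˣ} (B : Bd c x χ k) :
    χ 1 = 2 ∧ S χ x x = Nat.card (MulAction.stabilizer G x) ∧ bar χ = χ ∧
      ((n = 4 ∧ Om c x = {χ, pw k χ}) ∨
        (n = 5 ∧ ∃ ψ, OC c x ψ ∧ ψ 1 = 1 ∧ ψ ≠ χ ∧ ψ ≠ pw k χ ∧ Om c x = {χ, pw k χ, ψ})) := by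
  classical
  obtain ⟨M, D, hMD, hsum⟩ := degs hc hc2 hcf hn x
  have hO' : OC c x (pw k χ) := OC_pw hc hc2 hc1 B.oc k
  have hOb : OC c x (bar χ) := OC_bar hc hc2 B.oc
  obtain ⟨a1, a2, a3, a4⟩ := hMD χ B.oc
  obtain ⟨b1, b2, b3, b4⟩ := hMD (pw k χ) hO'
  obtain ⟨d1, d2, d3, d4⟩ := hMD (bar χ) hOb
  have hG0 : (Nat.card (MulAction.stabilizer G x) : ℂ) ≠ 0 := by exact_mod_cast Nat.card_pos.ne'
  have hD : D (pw k χ) = D χ := by
    rw [pw_at_one, a2] at b2
    exact_mod_cast b2.symm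
  have hDb : D (bar χ) = D χ := by
    have h1 : bar χ 1 = χ 1 := by
      unfold bar
      rw [inv_one]
    rw [h1, a2] at d2
    exact_mod_cast d2.symm
  have hDne : D χ ≠ 1 := by
    intro h
    apply B.deg
    rw [a2, h, Nat.cast_one]
  have hD2 : 2 ≤ D χ := by omega
  -- three different constituents of degree at least two are impossible
  have key : ∀ s : Finset (G → ℂ), s ⊆ Om c x → ∑ ψ ∈ s, M ψ * D ψ ≤ n := fun s hs => by
    rw [← hsum]
    exact Finset.sum_le_sum_of_subset hs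
  have h2 := key {χ, pw k χ} (by
    intro ψ hψ
    rw [Finset.mem_insert, Finset.mem_singleton] at hψ
    rcases hψ with rfl | rfl
    · exact mem_Om.mpr B.oc
    · exact mem_Om.mpr hO')
  rw [Finset.sum_pair B.ne.symm, hD] at h2
  have hle1 : M χ * 2 ≤ M χ * D χ := Nat.mul_le_mul_left _ hD2
  have hle2 : M (pw k χ) * 2 ≤ M (pw k χ) * D χ := Nat.mul_le_mul_left _ hD2
  have hle3 : 1 * D χ ≤ M χ * D χ := Nat.mul_le_mul_right _ a3
  have hle4 : 1 * D χ ≤ M (pw k χ) * D χ := Nat.mul_le_mul_right _ b3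
  have hM1 : M χ = 1 := by omega
  have hM2 : M (pw k χ) = 1 := by omega
  have hDχ : D χ = 2 := by omega
  have hbar : bar χ = χ := by
    by_contra hne
    have h3 := key {χ, pw k χ, bar χ} (by
      intro ψ hψ
      rw [Finset.mem_insert, Finset.mem_insert, Finset.mem_singleton] at hψ
      rcases hψ with rfl | rfl | rfl
      · exact mem_Om.mpr B.oc
      · exact mem_Om.mpr hO'
      · exact mem_Om.mpr hOb)
    rw [Finset.sum_insert (by
      rw [Finset.mem_insert, Finset.mem_singleton, not_or]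
      exact ⟨B.ne.symm, Ne.symm hne⟩), Finset.sum_pair B.nbar, hD, hDb, hM1, hM2, hDχ] at h3
    omega
  refine ⟨by rw [a2, hDχ]; norm_num, by rw [a1, hM1, Nat.cast_one, mul_one], hbar, ?_⟩
  have hrest : ∑ ψ ∈ Om c x \ {χ, pw k χ}, M ψ * D ψ + 4 = n := by
    rw [← hsum, ← Finset.sum_sdiff (s₁ := {χ, pw k χ}) (s₂ := Om c x) (by
      intro ψ hψ
      rw [Finset.mem_insert, Finset.mem_singleton] at hψ
      rcases hψ with rfl | rfl
      · exact mem_Om.mpr B.oc
      · exact mem_Om.mpr hO'), Finset.sum_pair B.ne.symm, hD, hM1, hM2, hDχ]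
  have hterm : ∀ ψ ∈ Om c x \ {χ, pw k χ}, 1 ≤ M ψ * D ψ := by
    intro ψ hψ
    obtain ⟨-, -, e3, e4⟩ := hMD ψ (mem_Om.mp (Finset.mem_sdiff.mp hψ).1)
    exact Nat.mul_pos e3 e4
  have hcard : (Om c x \ {χ, pw k χ}).card ≤ ∑ ψ ∈ Om c x \ {χ, pw k χ}, M ψ * D ψ := by
    rw [Finset.card_eq_sum_ones]
    exact Finset.sum_le_sum hterm
  have hsub : {χ, pw k χ} ⊆ Om c x := by
    intro ψ hψ
    rw [Finset.mem_insert, Finset.mem_singleton] at hψ
    rcases hψ with rfl | rfl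
    · exact mem_Om.mpr B.oc
    · exact mem_Om.mpr hO'
  have hn4 : n = 4 ∨ n = 5 := by omega
  rcases hn4 with rfl | rfl
  · left
    refine ⟨rfl, ?_⟩
    have h4 : Om c x \ {χ, pw k χ} = ∅ := by
      rw [← Finset.card_eq_zero]
      omega
    exact Finset.Subset.antisymm (Finset.sdiff_eq_empty_iff_subset.mp h4) hsub
  · right
    refine ⟨rfl, ?_⟩
    have h4 : (Om c x \ {χ, pw k χ}).card = 1 := by
      have h5 : (Om c x \ {χ, pw k χ}).card ≠ 0 := by
        intro h5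
        rw [Finset.card_eq_zero] at h5
        rw [h5, Finset.sum_empty] at hrest
        omega
      omega
    obtain ⟨ψ, hψ⟩ := Finset.card_eq_one.mp h4
    have h6 : ψ ∈ Om c x \ {χ, pw k χ} := by rw [hψ]; exact Finset.mem_singleton_self ψ
    have h7 := Finset.mem_sdiff.mp h6
    rw [Finset.mem_insert, Finset.mem_singleton, not_or] at h7
    obtain ⟨-, e2, e3, e4⟩ := hMD ψ (mem_Om.mp h7.1)
    rw [hψ, Finset.sum_singleton] at hrest
    have h8 : D ψ = 1 := by
      have h9 : 1 * D ψ ≤ M ψ * D ψ := Nat.mul_le_mul_right _ e3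
      omega
    refine ⟨ψ, mem_Om.mp h7.1, by rw [e2, h8, Nat.cast_one], h7.2.1, h7.2.2, ?_⟩
    rw [← Finset.sdiff_union_of_subset hsub, hψ]
    ext φ
    simp only [Finset.mem_union, Finset.mem_singleton, Finset.mem_insert]
    tauto

end Pool.Agent.U157.CD
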