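import Pool.Agent.U157.CD.Deg

/-!
# Invariant kernels, frames, polygons
-/

set_option autoImplicit false
set_option linter.unusedSectionVars false

open scoped Classical

namespace Pool.Agent.U157.CD

open Pool.Agent.U157.CC
open Pool.Agent.N770.CP Pool.Agent.H541R3.ART Pool.Agent.W446.AS Pool.Agent.R389
  Pool.Agent.Helper606_LC

section frames

variable {G : Type} [Group G] [Fintype G] {X : Type} [Fintype X] [MulAction G X]
  {c : G} (hc : ∀ g, c * g = g * c) (hc2 : c * c = 1) (hc1 : c ≠ 1) (hcf : ∀ x : X, c • x ≠ x)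

/-- a frame: one point of each pair `x`, `c x` -/
def Fr (c : G) {n : ℕ} (p : Fin n → X) : Prop := ∀ i j, i ≠ j → p i ≠ p j ∧ p i ≠ c • p j

include hc2 hcf in
lemma sum_fr {n : ℕ} (hn : Fintype.card X = 2 * n) {p : Fin n → X} (hp : Fr c p) (F : X → ℂ)
    (hF : ∀ y, F (c • y) = F y) : ∑ y, F y = 2 * ∑ i, F (p i) := by
  have hcc : ∀ u : X, c • (c • u) = u := fun u => by rw [← mul_smul, hc2, one_smul]
  let e : Fin n × Bool → X := fun u => if u.2 then c • p u.1 else p u.1
  have hinj : Function.Injective e := by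
    rintro ⟨i, a⟩ ⟨j, b⟩ h
    have hij : i = j := by
      by_contra hne
      obtain ⟨h1, h2⟩ := hp i j hne
      cases a <;> cases b
      · exact h1 h
      · exact h2 h
      · have h3 : c • p i = p j := h
        apply h2
        rw [← h3, hcc]
      · have h3 : c • p i = c • p j := h
        apply h1
        rw [← hcc (p i), h3, hcc]
    subst hij
    cases a <;> cases b
    · rfl
    · exact absurd (show p i = c • p i from h).symm (hcf _)
    · exact absurd (show c • p i = p i from h) (hcf _)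
    · rfl
  have hbij : Function.Bijective e := by
    rw [Fintype.bijective_iff_injective_and_card]
    refine ⟨hinj, ?_⟩
    rw [hn, Fintype.card_prod, Fintype.card_fin, Fintype.card_bool, mul_comm]
  rw [← hbij.sum_comp F, Fintype.sum_prod_type, Finset.mul_sum]
  refine Finset.sum_congr rfl fun i _ => ?_
  rw [Fintype.sum_bool]
  change F (c • p i) + F (p i) = 2 * F (p i)
  rw [hF]
  ring

include hc2 hcf in
lemma exists_fr [MulAction.IsPretransitive G X] {n : ℕ} (hn : Fintype.card X = 2 * n) :
    ∃ p : Fin n → X, Fr c p := by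
  obtain ⟨Φ, hΦ⟩ : ∃ Φ : Finset X, Pool.Agent.Q11.CZ.IsHalf c Φ := by
    obtain ⟨Φ, hΦ⟩ := Pool.Agent.Q11.CZ.exists_half (X := X) hc2 hcf
    rw [Pool.Agent.Q11.CZ.mem_halves] at hΦ
    exact ⟨Φ, hΦ⟩
  have hcard : Φ.card = n := by
    have := card_half hc2 hcf hΦ
    omega
  let f := Φ.equivFinOfCardEq hcard
  refine ⟨fun i => (f.symm i : X), fun i j hij => ⟨fun h => hij ?_, fun h => ?_⟩⟩
  · exact f.symm.injective (Subtype.ext h)
  · have h1 := (f.symm i).2
    have h3 : (f.symm i : X) = c • (f.symm j : X) := h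
    rw [h3, hΦ] at h1
    exact h1 (f.symm j).2

/-- an odd invariant kernel -/
structure Kn (c : G) (K : X → X → ℂ) : Prop where
  inv : ∀ (g : G) (x y : X), K (g • x) (g • y) = K x y
  odd : ∀ x y : X, K x (c • y) = - K x y

include hc2 in
lemma Kn.odd' {K : X → X → ℂ} (h : Kn c K) (x y : X) : K (c • x) y = - K x y := by
  have hcc : ∀ u : X, c • (c • u) = u := fun u => by rw [← mul_smul, hc2, one_smul]
  rw [← h.odd, ← h.inv c x (c • y), hcc]

include hc2 hcf in
lemma Kn.sum {K L : X → X → ℂ} (hK : Kn c K) (hL : Kn c L) {n : ℕ} (hn : Fintype.card X = 2 * n)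
    {p : Fin n → X} (hp : Fr c p) (x z : X) :
    ∑ y, K x y * L y z = 2 * ∑ i, K x (p i) * L (p i) z :=
  sum_fr hc2 hcf hn hp (fun y => K x y * L y z) (fun y => by
    rw [hK.odd, hL.odd' hc2]
    ring)

include hc hc2 in
/-- the kernel of an odd character -/
lemma kn_S {χ : G → ℂ} (hχ : χ ∈ Irr G) (ho : IsOdd c χ) : Kn c (S χ : X → X → ℂ) :=
  ⟨fun g x y => S_base hχ g x y, fun x y => S_cc hc hc2 ho x y⟩

/-- invariant kernels commute with the kernels of characters -/
lemma comm_S {K : X → X → ℂ} (hK : ∀ (g : G) (x y : X), K (g • x) (g • y) = K x y) (χ : G → ℂ)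
    (x z : X) : ∑ y, K x y * S χ y z = ∑ y, S χ x y * K y z := by
  have h1 : ∀ y, K x y * S χ y z = ∑ g : G, if g⁻¹ • z = y then K x y * χ g⁻¹ else 0 := by
    intro y
    unfold S
    rw [Finset.mul_sum]
    refine Finset.sum_congr rfl fun g _ => ?_
    by_cases h : g • y = z
    · rw [if_pos h, if_pos (by rw [inv_smul_eq_iff, h])]
    · rw [if_neg h, if_neg (fun h' => h (by rw [← h', smul_inv_smul])), mul_zero]
  have h2 : ∀ y, S χ x y * K y z = ∑ g : G, if g • x = y then χ g⁻¹ * K y z else 0 := by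
    intro y
    unfold S
    rw [Finset.sum_mul]
    refine Finset.sum_congr rfl fun g _ => ?_
    by_cases h : g • x = y
    · rw [if_pos h, if_pos h]
    · rw [if_neg h, if_neg h, zero_mul]
  rw [Finset.sum_congr rfl fun y _ => h1 y, Finset.sum_congr rfl fun y _ => h2 y,
    Finset.sum_comm, Finset.sum_comm (s := (Finset.univ : Finset X))]
  refine Finset.sum_congr rfl fun g _ => ?_
  rw [Finset.sum_ite_eq, if_pos (Finset.mem_univ _), Finset.sum_ite_eq, if_pos (Finset.mem_univ _)]
  have h3 := hK g x (g⁻¹ • z)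
  rw [smul_inv_smul] at h3
  rw [h3]
  ring

end frames

section poly

/-- the group acts on `X` as the full symmetry group of the regular polygon with `N` vertices -/
def Poly (G X : Type) [Group G] [MulAction G X] (N : ℕ) : Prop :=
  ∃ e : ZMod N ≃ X, (∀ g : G, ∃ a : ZMod N, (∀ i, g • e i = e (a + i)) ∨ (∀ i, g • e i = e (a - i))) ∧
    ∀ a : ZMod N, (∃ g : G, ∀ i, g • e i = e (a + i)) ∧ (∃ g : G, ∀ i, g • e i = e (a - i))

/-- automorphisms of a cycle -/
lemma cyc_aut {N : ℕ} (hN : 3 ≤ N) {π : ZMod N → ZMod N} (hπ : Function.Injective π)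
    (h : ∀ i, π (i + 1) = π i + 1 ∨ π (i + 1) = π i - 1) :
    (∀ i, π i = π 0 + i) ∨ (∀ i, π i = π 0 - i) := by
  have : NeZero N := ⟨by omega⟩
  have h2 : (2 : ZMod N) ≠ 0 := by
    intro h2
    have h3 : ((2 : ℕ) : ZMod N) = 0 := by exact_mod_cast h2
    rw [ZMod.natCast_eq_zero_iff] at h3
    have := Nat.le_of_dvd two_pos h3
    omega
  have key : ∀ i, π (i + 1 + 1) ≠ π i := by
    intro i hi
    have h3 := hπ hi
    apply h2
    linear_combination h3
  rcases h 0 with h0 | h0
  · left
    have h1 : ∀ m : ℕ, π m = π 0 + m ∧ π (m + 1) = π 0 + m + 1 := by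
      intro m
      induction m with
      | zero => exact ⟨by simp, by simpa using h0⟩
      | succ m ih =>
        obtain ⟨i1, i2⟩ := ih
        push_cast
        refine ⟨by rw [i2]; ring, ?_⟩
        rcases h (m + 1) with h3 | h3
        · rw [h3, i2]
          ring
        · exfalso
          apply key m
          rw [h3, i2, i1]
          ring
    intro i
    have h3 := (h1 i.val).1
    rwa [ZMod.natCast_val, ZMod.cast_id] at h3
  · right
    have h1 : ∀ m : ℕ, π m = π 0 - m ∧ π (m + 1) = π 0 - m - 1 := by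
      intro m
      induction m with
      | zero => exact ⟨by simp, by simpa using h0⟩
      | succ m ih =>
        obtain ⟨i1, i2⟩ := ih
        push_cast
        refine ⟨by rw [i2]; ring, ?_⟩
        rcases h (m + 1) with h3 | h3
        · exfalso
          apply key m
          rw [h3, i2, i1]
          ring
        · rw [h3, i2]
          ring
    intro i
    have h3 := (h1 i.val).1
    rwa [ZMod.natCast_val, ZMod.cast_id] at h3

variable {G : Type} [Group G] {X : Type} [MulAction G X] [MulAction.IsPretransitive G X]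

/-- a cyclic arrangement with an invariant adjacency -/
theorem poly_of_adj {N : ℕ} (hN : 3 ≤ N) (e : ZMod N ≃ X) (R : X → X → Prop)
    (hR : ∀ (g : G) (x y : X), R x y → R (g • x) (g • y))
    (hRe : ∀ i j, R (e i) (e j) ↔ (j = i + 1 ∨ j = i - 1))
    (hH : ∃ h : G, h • e 0 = e 0 ∧ ∃ y : X, h • y ≠ y) : Poly G X N := by
  have haut : ∀ g : G, (∀ i, g • e i = e (e.symm (g • e 0) + i)) ∨
      (∀ i, g • e i = e (e.symm (g • e 0) - i)) := by
    intro g
    have h1 := cyc_aut hN (π := fun i => e.symm (g • e i)) (fun i j h => by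
      have h2 : g • e i = g • e j := e.symm.injective h
      exact e.injective ((MulAction.injective g) h2)) (fun i => by
      have h2 : R (e i) (e (i + 1)) := (hRe i (i + 1)).mpr (Or.inl rfl)
      have h3 := hR g _ _ h2
      rw [← e.apply_symm_apply (g • e i), ← e.apply_symm_apply (g • e (i + 1))] at h3
      exact (hRe _ _).mp h3)
    rcases h1 with h1 | h1
    · left
      intro i
      rw [← h1 i, e.apply_symm_apply]
    · right
      intro i
      rw [← h1 i, e.apply_symm_apply]
  refine ⟨e, fun g => ⟨_, haut g⟩, ?_⟩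
  obtain ⟨h, h0, y, hy⟩ := hH
  have hr : ∀ i, h • e i = e (- i) := by
    rcases haut h with h1 | h1
    · exfalso
      apply hy
      have h2 := h1 (e.symm y)
      rw [h0, e.symm_apply_apply, zero_add, e.apply_symm_apply] at h2
      exact h2
    · intro i
      rw [h1, h0, e.symm_apply_apply, zero_sub]
  intro a
  obtain ⟨g, hg⟩ := MulAction.exists_smul_eq G (e 0) (e a)
  rcases haut g with h1 | h1
  · rw [hg, e.symm_apply_apply] at h1
    refine ⟨⟨g, h1⟩, ⟨g * h, fun i => ?_⟩⟩
    rw [mul_smul, hr, h1, ← sub_eq_add_neg]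
  · rw [hg, e.symm_apply_apply] at h1
    refine ⟨⟨g * h, fun i => ?_⟩, ⟨g, h1⟩⟩
    rw [mul_smul, hr, h1, sub_neg_eq_add]

end poly

section triv

variable {G : Type} [Group G] [Fintype G] {X : Type} [Fintype X] [MulAction G X]
  [MulAction.IsPretransitive G X]

/-- if the stabilizer acts trivially the multiplicity is the degree -/
theorem triv_mult {c : G} {x : X} {χ : G → ℂ} (h : OC c x χ)
    (hH : ∀ g : G, g • x = x → ∀ y : X, g • y = y) :
    S χ x x = Nat.card (MulAction.stabilizer G x) * χ 1 := by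
  obtain ⟨⟨n, ρ, hρ, rfl⟩, -, hocc⟩ := h
  have hI := (irred_iff ρ).mpr hρ
  let T : Module.End ℂ (Fin n → ℂ) := ∑ g : G, if g • x = x then ρ g⁻¹ else 0
  have hn : ∀ a g : G, (a⁻¹ * g * a) • x = x ↔ g • x = x := by
    intro a g
    constructor
    · intro h1
      have h2 := hH _ h1 (a⁻¹ • x)
      rw [mul_smul, mul_smul, smul_inv_smul] at h2
      exact (MulAction.injective a⁻¹) h2
    · intro h1
      rw [mul_smul, mul_smul, hH g h1, inv_smul_smul]
  have hcomm : ∀ (a : G) (v : Fin n → ℂ), T (ρ a v) = ρ a (T v) := by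
    intro a v
    simp only [T, LinearMap.sum_apply, map_sum]
    rw [← Equiv.sum_comp (MulAut.conj a).toEquiv]
    refine Finset.sum_congr rfl fun g _ => ?_
    change (if (a * g * a⁻¹) • x = x then ρ (a * g * a⁻¹)⁻¹ else 0 : Module.End ℂ (Fin n → ℂ)) (ρ a v)
      = ρ a ((if g • x = x then ρ g⁻¹ else 0 : Module.End ℂ (Fin n → ℂ)) v)
    have h1 := hn a⁻¹ g
    rw [inv_inv] at h1
    by_cases h2 : g • x = x
    · rw [if_pos (h1.mpr h2), if_pos h2, ← Module.End.mul_apply, ← Module.End.mul_apply, ← map_mul,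
        ← map_mul]
      congr 2
      group
    · rw [if_neg (fun h3 => h2 (h1.mp h3)), if_neg h2, LinearMap.zero_apply, LinearMap.zero_apply,
        map_zero]
  obtain ⟨s, hs⟩ := hI.scalar T (fun g v => hcomm g v)
  have hidem : T * T = (Nat.card (MulAction.stabilizer G x) : ℂ) • T := by
    simp only [T]
    rw [Finset.sum_mul]
    have h1 : ∀ g : G, (if g • x = x then ρ g⁻¹ else 0 : Module.End ℂ (Fin n → ℂ)) * T =
        if g • x = x then T else 0 := by
      intro g
      by_cases h2 : g • x = x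
      · rw [if_pos h2, if_pos h2]
        simp only [T]
        rw [Finset.mul_sum]
        conv_rhs => rw [← Equiv.sum_comp (Equiv.mulRight g)]
        refine Finset.sum_congr rfl fun u _ => ?_
        change ρ g⁻¹ * (if u • x = x then ρ u⁻¹ else 0) = if (u * g) • x = x then ρ (u * g)⁻¹ else 0
        rw [mul_smul, h2]
        by_cases h3 : u • x = x
        · rw [if_pos h3, if_pos h3, ← map_mul, mul_inv_rev]
        · rw [if_neg h3, if_neg h3, mul_zero]
      · rw [if_neg h2, if_neg h2, zero_mul]
    rw [Finset.sum_congr rfl fun g _ => h1 g, ← Finset.sum_filter, Finset.sum_const,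
      ← Nat.cast_smul_eq_nsmul ℂ]
    congr 2
    rw [Nat.card_eq_fintype_card, Fintype.card_subtype]
    rfl
  have htr : LinearMap.trace ℂ _ T = S (fun g => LinearMap.trace ℂ _ (ρ g)) x x := by
    simp only [T, S, map_sum]
    refine Finset.sum_congr rfl fun g _ => ?_
    by_cases h2 : g • x = x
    · rw [if_pos h2, if_pos h2]
    · rw [if_neg h2, if_neg h2, map_zero]
  have hTs : T = s • (1 : Module.End ℂ (Fin n → ℂ)) := LinearMap.ext fun v => by
    rw [hs, LinearMap.smul_apply, Module.End.one_apply]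
  have hS : S (fun g => LinearMap.trace ℂ _ (ρ g)) x x = s * LinearMap.trace ℂ _ (ρ 1) := by
    rw [← htr, hTs, map_smul, smul_eq_mul, map_one ρ]
  have hs0 : s ≠ 0 := by
    rintro rfl
    apply hocc
    change S (fun g => LinearMap.trace ℂ _ (ρ g)) x x = 0
    rw [hS, zero_mul]
  have hn0 : Nontrivial (Fin n → ℂ) := hI.1
  obtain ⟨v, hv⟩ := exists_ne (0 : Fin n → ℂ)
  have h5 := LinearMap.congr_fun hidem v
  rw [Module.End.mul_apply, LinearMap.smul_apply, hs, hs, smul_smul, smul_smul] at h5
  have h6 : s * s = Nat.card (MulAction.stabilizer G x) * s := by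
    have h7 : (s * s - Nat.card (MulAction.stabilizer G x) * s) • v = 0 := by
      rw [sub_smul, h5, sub_self]
    exact sub_eq_zero.mp ((smul_eq_zero.mp h7).resolve_right hv)
  have h8 : s = Nat.card (MulAction.stabilizer G x) := mul_right_cancel₀ hs0 h6
  change S (fun g => LinearMap.trace ℂ _ (ρ g)) x x = _ * LinearMap.trace ℂ _ (ρ 1)
  rw [hS, h8]

end triv

end Pool.Agent.U157.CD
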