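import Mathlib

/-!
# Finite tables
-/

set_option autoImplicit false

namespace Pool.Agent.U157.CD

/-- the values of the kernel on the octagon -/
def w8 : ZMod 8 → ℤ := ![0, 1, 0, -1, 0, -1, 0, 1]

def v0 : ZMod 8 → ℤ := ![0, 1, 0, -1, 0, -1, 0, 1]
def v1 : ZMod 8 → ℤ := ![1, 0, 1, 0, -1, 0, -1, 0]
def v2 : ZMod 8 → ℤ := ![0, 1, 0, 1, 0, -1, 0, -1]
def v3 : ZMod 8 → ℤ := ![-1, 0, 1, 0, 1, 0, -1, 0]

lemma t0 : ∀ j : ZMod 8, w8 (j - 0) = v0 j := by decide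
lemma t1 : ∀ j : ZMod 8, w8 (j - 1) = v1 j := by decide
lemma t2 : ∀ j : ZMod 8, w8 (j - 2) = v2 j := by decide
lemma t3 : ∀ j : ZMod 8, w8 (j - 3) = v3 j := by decide
lemma t4 : ∀ j : ZMod 8, w8 (j - 4) = - v0 j := by decide
lemma t5 : ∀ j : ZMod 8, w8 (j - 5) = - v1 j := by decide
lemma t6 : ∀ j : ZMod 8, w8 (j - 6) = - v2 j := by decide
lemma t7 : ∀ j : ZMod 8, w8 (j - 7) = - v3 j := by decide

lemma w8_one : ∀ i j : ZMod 8, w8 (j - i) = 1 ↔ (j = i + 1 ∨ j = i - 1) := by decide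

lemma nbr8 : ∀ i j : ZMod 8, (∀ l : ZMod 8, (l = i + 1 ∨ l = i - 1) ↔ (l = j + 1 ∨ l = j - 1)) →
    i = j := by decide

/-- the values of the kernel on the decagon -/
lemma tab10 : ∀ m : ZMod 10, (m = 1 ∨ m = 9) ∨ (m = 3 ∨ m = 7) ∨ m = 5 ∨ m = 0 ∨ (m = 2 ∨ m = 8) ∨
    (m = 4 ∨ m = 6) := by decide

end Pool.Agent.U157.CD
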