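import Pool.Agent.U157.CD.Ker
import Pool.Agent.U157.CD.Tab

/-!
# CM fields of degree eight
-/

set_option autoImplicit false
set_option linter.unusedSectionVars false

open scoped Classical

namespace Pool.Agent.U157.CD

open Pool.Agent.U157.CC
open Pool.Agent.N770.CP Pool.Agent.H541R3.ART Pool.Agent.W446.AS Pool.Agent.R389
  Pool.Agent.Helper606_LC

variable {G : Type} [Group G] [Fintype G] {X : Type} [Fintype X] [MulAction G X]
  {c : G} (hc : ∀ g, c * g = g * c) (hc2 : c * c = 1) (hc1 : c ≠ 1) (hcf : ∀ x : X, c • x ≠ x)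
  [MulAction.IsPretransitive G X]

lemma Bd.base {x : X} {χ : G → ℂ} {k : (ZMod (Nat.card G))ˣ} (B : Bd c x χ k) (y : X) :
    Bd c y χ k := ⟨B.oc.base y, B.deg, B.ne, B.nbar⟩

/-- the data of a bad constituent -/
structure BB (c : G) (X : Type) [Fintype X] [MulAction G X] (χ χ' : G → ℂ) : Prop where
  kn : Kn c (DD χ χ' : X → X → ℂ)
  self : ∀ x : X, DD χ χ' x x = 0
  sym : ∀ x y : X, DD χ χ' x y = DD χ χ' y x
  non : ∀ x : X, ∃ y : X, DD χ χ' x y ≠ 0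
  conv : ∀ x z : X, ∑ y : X, DD χ χ' x y * DD χ χ' y z = (Nat.card G / 2) * (S χ x z + S χ' x z)
  rat : ∀ (x y : X) (q : ℚ), S χ x y = q → S χ' x y = q
  comm : ∀ K : X → X → ℂ, (∀ (g : G) (x y : X), K (g • x) (g • y) = K x y) →
    ∀ x z : X, ∑ y, K x y * DD χ χ' y z = ∑ y, DD χ χ' x y * K y z
  move : ∀ x : X, ∃ h : G, h • x = x ∧ ∃ y : X, h • y ≠ y

include hc hc2 hc1 hcf in
theorem mkBB {n : ℕ} (hn : Fintype.card X = 2 * n) (hn5 : n ≤ 5) {x : X} {χ : G → ℂ}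
    {k : (ZMod (Nat.card G))ˣ} (B : Bd c x χ k) : BB c X χ (pw k χ) := by
  have hO' : ∀ y : X, OC c y (pw k χ) := fun y => (OC_pw hc hc2 hc1 B.oc k).base y
  have hO : ∀ y : X, OC c y χ := fun y => B.oc.base y
  obtain ⟨d1, -, d3, -⟩ := bad_data hc hc2 hc1 hcf hn hn5 B
  have hb' : bar (pw k χ) = pw k χ := by rw [← pw_bar, d3]
  have k1 := kn_S (X := X) hc hc2 B.oc.irr B.oc.odd
  have k2 := kn_S (X := X) hc hc2 (hO' x).irr (hO' x).odd
  refine ⟨⟨fun g x y => ?_, fun x y => ?_⟩, fun y => ?_, fun x y => ?_, fun y => ?_, fun y z => ?_,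
    fun y z q hq => ?_, fun K hK y z => ?_, fun y => ?_⟩
  · unfold DD
    rw [k1.inv, k2.inv]
  · unfold DD
    rw [k1.odd, k2.odd]
    ring
  · unfold DD
    rw [S_pw, sub_self]
  · unfold DD
    have e1 : S χ y x = S (bar χ) x y := S_swap χ x y
    have e2 : S (pw k χ) y x = S (bar (pw k χ)) x y := S_swap (pw k χ) x y
    rw [e1, e2, d3, hb']
  · by_contra hcon
    push Not at hcon
    apply B.ne
    refine (indep (hO y).irr (hO' y).irr y (hO y).occ fun u => ?_).symm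
    exact sub_eq_zero.mp (hcon u)
  · have h1 := DD_sum (X := X) (hO y) (hO' y) B.ne.symm (pw_at_one k χ).symm y z
    rw [h1, d1]
  · obtain ⟨σ, hσ⟩ := pw_aut (G := G) k
    have h1 : σ (S χ y z) = S (pw k χ) y z := by
      unfold S
      rw [map_sum]
      refine Finset.sum_congr rfl fun g _ => ?_
      split_ifs
      · exact hσ χ B.oc.irr _
      · exact map_zero σ
    rw [← h1, hq, map_ratCast]
  · unfold DD
    simp only [mul_sub, sub_mul, Finset.sum_sub_distrib]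
    rw [comm_S hK χ y z, comm_S hK (pw k χ) y z]
  · by_contra hcon
    push Not at hcon
    have h1 := triv_mult (hO y) hcon
    obtain ⟨e1, e2, -, -⟩ := bad_data hc hc2 hc1 hcf hn hn5 (B.base y)
    rw [e1, e2] at h1
    have hG0 : (Nat.card (MulAction.stabilizer G y) : ℂ) ≠ 0 := by exact_mod_cast Nat.card_pos.ne'
    apply hG0
    linear_combination -h1

section oct

variable {χ χ' : G → ℂ} (P : BB c X χ χ')
  (hS : ∀ x z : X, 4 * (S χ x z + S χ' x z) =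
    if z = x then (Nat.card G : ℂ) else if z = c • x then - (Nat.card G : ℂ) else 0)
  (hn : Fintype.card X = 2 * 4)

/-- four points in different pairs -/
def F4 (c : G) (x0 x1 x2 x3 : X) : Prop :=
  Far c x0 x1 ∧ Far c x0 x2 ∧ Far c x0 x3 ∧ Far c x1 x2 ∧ Far c x1 x3 ∧ Far c x2 x3

include hc2 in
lemma far_flip {x y : X} (h : Far c x y) : Far c x (c • y) := by
  refine ⟨fun e => h.2 ?_, fun e => h.1 ((MulAction.injective c) e)⟩
  rw [← e, ← mul_smul, hc2, one_smul]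

include hc2 in
lemma F4.fr {x0 x1 x2 x3 : X} (h : F4 c x0 x1 x2 x3) : Fr c ![x0, x1, x2, x3] := by
  obtain ⟨h1, h2, h3, h4, h5, h6⟩ := h
  have s := fun {x y : X} (h : Far c x y) => far_symm hc2 h
  have t := fun {x y : X} (h : Far c x y) => (⟨h.1, h.2⟩ : y ≠ x ∧ y ≠ c • x)
  intro i j hij
  fin_cases i <;> fin_cases j <;> first | exact absurd rfl hij | skip
  · exact t (s h1)
  · exact t (s h2)
  · exact t (s h3)
  · exact t h1
  · exact t (s h4)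
  · exact t (s h5)
  · exact t h2
  · exact t h4
  · exact t (s h6)
  · exact t h3
  · exact t h5
  · exact t h6

include hc2 hcf P hS hn in
lemma eqs {x0 x1 x2 x3 : X} (h : F4 c x0 x1 x2 x3) :
    (DD χ χ' x0 x1 ^ 2 + DD χ χ' x0 x2 ^ 2 + DD χ χ' x0 x3 ^ 2 = (Nat.card G / 4) ^ 2) ∧
    (DD χ χ' x0 x2 * DD χ χ' x2 x1 + DD χ χ' x0 x3 * DD χ χ' x3 x1 = 0) := by
  have hf := h.fr hc2
  constructor
  · have h1 := P.conv x0 x0
    have h2 := hS x0 x0
    rw [if_pos rfl] at h2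
    rw [P.kn.sum hc2 hcf P.kn hn hf, Fin.sum_univ_four] at h1
    simp only [Matrix.cons_val_zero, Matrix.cons_val_one, Matrix.cons_val] at h1
    rw [P.self x0, P.sym x1 x0, P.sym x2 x0, P.sym x3 x0] at h1
    linear_combination h1 / 2 + (Nat.card G : ℂ) / 16 * h2
  · have h1 := P.conv x0 x1
    have h2 := hS x0 x1
    rw [if_neg h.1.1, if_neg h.1.2] at h2
    rw [P.kn.sum hc2 hcf P.kn hn hf, Fin.sum_univ_four] at h1
    simp only [Matrix.cons_val_zero, Matrix.cons_val_one, Matrix.cons_val] at h1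
    rw [P.self x0, P.self x1] at h1
    linear_combination h1 / 2 + (Nat.card G : ℂ) / 16 * h2

include hc2 in
lemma F4.perm1 {x0 x1 x2 x3 : X} (h : F4 c x0 x1 x2 x3) : F4 c x1 x0 x2 x3 := by
  obtain ⟨h1, h2, h3, h4, h5, h6⟩ := h
  exact ⟨far_symm hc2 h1, h4, h5, h2, h3, h6⟩

include hc2 in
lemma F4.perm2 {x0 x1 x2 x3 : X} (h : F4 c x0 x1 x2 x3) : F4 c x0 x2 x1 x3 := by
  obtain ⟨h1, h2, h3, h4, h5, h6⟩ := h
  exact ⟨h2, h1, h3, far_symm hc2 h4, h6, h5⟩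

include hc2 in
lemma F4.perm3 {x0 x1 x2 x3 : X} (h : F4 c x0 x1 x2 x3) : F4 c x0 x1 x3 x2 := by
  obtain ⟨h1, h2, h3, h4, h5, h6⟩ := h
  exact ⟨h1, h3, h2, h5, h4, far_symm hc2 h6⟩

include hc2 in
lemma F4.flip3 {x0 x1 x2 x3 : X} (h : F4 c x0 x1 x2 x3) : F4 c x0 x1 x2 (c • x3) := by
  obtain ⟨h1, h2, h3, h4, h5, h6⟩ := h
  exact ⟨h1, h2, far_flip hc2 h3, h4, far_flip hc2 h5, far_flip hc2 h6⟩

include hc2 in
lemma F4.flip2 {x0 x1 x2 x3 : X} (h : F4 c x0 x1 x2 x3) : F4 c x0 x1 (c • x2) x3 :=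
  ((h.perm3 hc2).flip3 hc2).perm3 hc2

include hc2 hcf P hS hn in
/-- all the equations -/
lemma eqs_all {x0 x1 x2 x3 : X} (h : F4 c x0 x1 x2 x3) :
    DD χ χ' x2 x3 ^ 2 = DD χ χ' x0 x1 ^ 2 ∧ DD χ χ' x1 x3 ^ 2 = DD χ χ' x0 x2 ^ 2 ∧
      DD χ χ' x1 x2 ^ 2 = DD χ χ' x0 x3 ^ 2 ∧
    (DD χ χ' x0 x2 * DD χ χ' x1 x2 + DD χ χ' x0 x3 * DD χ χ' x1 x3 = 0) ∧
    (DD χ χ' x0 x1 * DD χ χ' x1 x2 + DD χ χ' x0 x3 * DD χ χ' x2 x3 = 0) ∧
    (DD χ χ' x0 x1 * DD χ χ' x1 x3 + DD χ χ' x0 x2 * DD χ χ' x2 x3 = 0) := by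
  obtain ⟨q0, e1⟩ := eqs hc2 hcf P hS hn h
  obtain ⟨q1, -⟩ := eqs hc2 hcf P hS hn (h.perm1 hc2)
  obtain ⟨q2, -⟩ := eqs hc2 hcf P hS hn ((h.perm2 hc2).perm1 hc2)
  obtain ⟨q3, -⟩ := eqs hc2 hcf P hS hn ((((h.perm3 hc2).perm2 hc2).perm1 hc2))
  obtain ⟨-, e2⟩ := eqs hc2 hcf P hS hn (h.perm2 hc2)
  obtain ⟨-, e3⟩ := eqs hc2 hcf P hS hn ((h.perm3 hc2).perm2 hc2)
  rw [P.sym x1 x0] at q1
  rw [P.sym x2 x0, P.sym x2 x1] at q2
  rw [P.sym x3 x0, P.sym x3 x1, P.sym x3 x2] at q3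
  rw [P.sym x2 x1, P.sym x3 x1] at e1
  rw [P.sym x3 x2] at e2
  refine ⟨?_, ?_, ?_, e1, e2, e3⟩
  · linear_combination (q2 + q3 - q0 - q1) / 2
  · linear_combination (q1 + q3 - q0 - q2) / 2
  · linear_combination (q1 + q2 - q0 - q3) / 2

include hc2 hcf P hS hn in
/-- two zeros are impossible -/
lemma not_two {x0 x1 x2 x3 : X} (h : F4 c x0 x1 x2 x3) (h1 : DD χ χ' x0 x1 = 0)
    (h2 : DD χ χ' x0 x2 = 0) : False := by
  obtain ⟨q0, -⟩ := eqs hc2 hcf P hS hn h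
  rw [h1, h2] at q0
  have h3 : DD χ χ' x0 x3 = Nat.card G / 4 ∨ DD χ χ' x0 x3 = -(Nat.card G / 4) :=
    sq_eq_sq_iff_eq_or_eq_neg.mp (by linear_combination q0)
  have h4 := hS x0 x3
  rw [if_neg h.2.2.1.1, if_neg h.2.2.1.2] at h4
  have hG : (Nat.card G : ℂ) ≠ 0 := by exact_mod_cast Nat.card_pos.ne'
  rcases h3 with h3 | h3
  · have h5 : S χ x0 x3 = ((Nat.card G / 8 : ℚ) : ℂ) := by
      unfold DD at h3
      push_cast
      linear_combination h3 / 2 + h4 / 8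
    have h6 := P.rat x0 x3 _ h5
    unfold DD at h3
    rw [h5, h6, sub_self] at h3
    exact hG (by linear_combination -4 * h3)
  · have h5 : S χ x0 x3 = ((-Nat.card G / 8 : ℚ) : ℂ) := by
      unfold DD at h3
      push_cast
      linear_combination h3 / 2 + h4 / 8
    have h6 := P.rat x0 x3 _ h5
    unfold DD at h3
    rw [h5, h6, sub_self] at h3
    exact hG (by linear_combination 4 * h3)

include hc2 hcf P hS hn in
/-- a zero exists -/
lemma some_zero {x0 x1 x2 x3 : X} (h : F4 c x0 x1 x2 x3) (h1 : DD χ χ' x0 x1 ≠ 0)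
    (h2 : DD χ χ' x0 x2 ≠ 0) (h3 : DD χ χ' x0 x3 ≠ 0) : False := by
  obtain ⟨q1, q2, q3, e1, e2, e3⟩ := eqs_all hc2 hcf P hS hn h
  set a := DD χ χ' x0 x1
  set b := DD χ χ' x0 x2
  set t := DD χ χ' x0 x3
  have k1 := sq_eq_sq_iff_eq_or_eq_neg.mp q1
  have k2 := sq_eq_sq_iff_eq_or_eq_neg.mp q2
  have k3 := sq_eq_sq_iff_eq_or_eq_neg.mp q3
  have z1 := mul_ne_zero h2 h3
  have z2 := mul_ne_zero h1 h3
  have z3 := mul_ne_zero h1 h2
  rcases k1 with k1 | k1 <;> rcases k2 with k2 | k2 <;> rcases k3 with k3 | k3 <;>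
    rw [k2, k3] at e1 <;> rw [k1, k3] at e2 <;> rw [k1, k2] at e3
  · exact z1 (by linear_combination e1 / 2)
  · exact z3 (by linear_combination e3 / 2)
  · exact z2 (by linear_combination e2 / 2)
  · exact z1 (by linear_combination -e1 / 2)
  · exact z1 (by linear_combination e1 / 2)
  · exact z2 (by linear_combination -e2 / 2)
  · exact z3 (by linear_combination -e3 / 2)
  · exact z1 (by linear_combination -e1 / 2)

include hc2 hcf P hS hn in
/-- a frame with a zero at the right place -/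
lemma exists_good {x0 x1 x2 x3 : X} (h : F4 c x0 x1 x2 x3) : ∃ y1 y2 y3 : X, F4 c x0 y1 y2 y3 ∧
    DD χ χ' x0 y2 = 0 ∧ DD χ χ' x0 y1 ≠ 0 ∧ DD χ χ' x0 y3 ≠ 0 := by
  by_cases h1 : DD χ χ' x0 x1 = 0
  · refine ⟨x2, x1, x3, h.perm2 hc2, h1, fun h2 => not_two hc2 hcf P hS hn h h1 h2, fun h3 => ?_⟩
    exact not_two hc2 hcf P hS hn (h.perm3 hc2) h1 h3
  by_cases h2 : DD χ χ' x0 x2 = 0
  · refine ⟨x1, x2, x3, h, h2, h1, fun h3 => ?_⟩
    exact not_two hc2 hcf P hS hn ((h.perm2 hc2).perm3 hc2) h2 h3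
  by_cases h3 : DD χ χ' x0 x3 = 0
  · exact ⟨x1, x3, x2, h.perm3 hc2, h3, h1, h2⟩
  · exact (some_zero hc2 hcf P hS hn h h1 h2 h3).elim

include hc2 hcf P hS hn in
/-- the two nonzero values agree up to the sign -/
lemma same_sq {x0 x1 x2 x3 : X} (h : F4 c x0 x1 x2 x3) (h2 : DD χ χ' x0 x2 = 0)
    (h1 : DD χ χ' x0 x1 ≠ 0) (h3 : DD χ χ' x0 x3 ≠ 0) :
    DD χ χ' x0 x3 ^ 2 = DD χ χ' x0 x1 ^ 2 := by
  by_contra hne
  obtain ⟨q1, q2, q3, -, e2, -⟩ := eqs_all hc2 hcf P hS hn h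
  let K : X → X → ℂ := fun x y =>
    if DD χ χ' x y ^ 2 = DD χ χ' x0 x1 ^ 2 then DD χ χ' x y / DD χ χ' x0 x1 else 0
  have hK : Kn c K := ⟨fun g x y => by simp only [K]; rw [P.kn.inv], fun x y => by
    simp only [K]
    rw [P.kn.odd, neg_sq]
    split_ifs
    · ring
    · ring⟩
  have h4 := P.comm K hK.inv x0 x2
  have hf := h.fr hc2
  rw [hK.sum hc2 hcf P.kn hn hf, P.kn.sum hc2 hcf hK hn hf, Fin.sum_univ_four,
    Fin.sum_univ_four] at h4
  simp only [Matrix.cons_val_zero, Matrix.cons_val_one, Matrix.cons_val] at h4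
  have k01 : K x0 x1 = 1 := (if_pos rfl).trans (div_self h1)
  have k03 : K x0 x3 = 0 := if_neg hne
  have k12 : K x1 x2 = 0 := if_neg (by rw [q3]; exact hne)
  have k32 : K x3 x2 = DD χ χ' x2 x3 / DD χ χ' x0 x1 := by
    simp only [K]
    rw [P.sym x3 x2, if_pos q1]
  have k22 : K x2 x2 = 0 := if_neg (by
    rw [P.self]
    intro h5
    apply h1
    have h6 : DD χ χ' x0 x1 ^ 2 = 0 := by rw [← h5]; ring
    exact pow_eq_zero_iff (two_ne_zero) |>.mp h6)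
  rw [k01, k03, k12, k32, P.self x0, P.self x2, h2] at h4
  have h5 : DD χ χ' x0 x1 * DD χ χ' x1 x2 = DD χ χ' x0 x3 * DD χ χ' x2 x3 := by
    have h6 : DD χ χ' x0 x1 * (DD χ χ' x0 x3 * (DD χ χ' x2 x3 / DD χ χ' x0 x1)) =
        DD χ χ' x0 x3 * DD χ χ' x2 x3 := by
      field_simp
    rw [← h6]
    linear_combination DD χ χ' x0 x1 / 2 * h4
  have h6 : DD χ χ' x0 x1 * DD χ χ' x1 x2 = 0 := by linear_combination (e2 + h5) / 2
  have h7 := (mul_eq_zero.mp h6).resolve_left h1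
  apply h3
  rw [h7] at q3
  exact pow_eq_zero_iff (two_ne_zero) |>.mp (by rw [← q3]; ring)

include hc2 hcf P hS hn in
/-- the octagon -/
theorem octagon : Poly G X 8 := by
  obtain ⟨p, hp⟩ := exists_fr (G := G) (X := X) (c := c) hc2 hcf hn
  have hF : F4 c (p 0) (p 1) (p 2) (p 3) := by
    have h1 : ∀ i j, i ≠ j → Far c (p i) (p j) := fun i j hij =>
      ⟨(hp j i (Ne.symm hij)).1, (hp j i (Ne.symm hij)).2⟩
    exact ⟨h1 0 1 (by decide), h1 0 2 (by decide), h1 0 3 (by decide), h1 1 2 (by decide),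
      h1 1 3 (by decide), h1 2 3 (by decide)⟩
  obtain ⟨x1, x2, x3, h, h02, h01, h03⟩ := exists_good hc2 hcf P hS hn hF
  generalize p 0 = x0 at h h02 h01 h03
  have hsq := same_sq hc2 hcf P hS hn h h02 h01 h03
  obtain ⟨q1, q2, q3, -, -, -⟩ := eqs_all hc2 hcf P hS hn h
  -- choose the signs
  obtain ⟨t, ht⟩ : ∃ t, t = DD χ χ' x0 x1 := ⟨_, rfl⟩
  have ht0 : t ≠ 0 := by rw [ht]; exact h01
  obtain ⟨y2, y3, hF', g01, g02, g12, g23⟩ : ∃ y2 y3 : X, F4 c x0 x1 y2 y3 ∧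
      DD χ χ' x0 x1 = t ∧ DD χ χ' x0 y2 = 0 ∧ DD χ χ' x1 y2 = t ∧ DD χ χ' y2 y3 = t := by
    obtain ⟨y2, hF2, g02, g12, gsq⟩ : ∃ y2 : X, F4 c x0 x1 y2 x3 ∧ DD χ χ' x0 y2 = 0 ∧
        DD χ χ' x1 y2 = t ∧ DD χ χ' y2 x3 ^ 2 = t ^ 2 := by
      rcases sq_eq_sq_iff_eq_or_eq_neg.mp (q3.trans (hsq.trans (by rw [ht] : _ = t ^ 2))) with h5 | h5
      · exact ⟨x2, h, h02, h5, by rw [q1, ht]⟩
      · refine ⟨c • x2, h.flip2 hc2, by rw [P.kn.odd, h02, neg_zero], by rw [P.kn.odd, h5, neg_neg],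
          by rw [P.kn.odd' hc2, neg_sq, q1, ht]⟩
    rcases sq_eq_sq_iff_eq_or_eq_neg.mp gsq with h5 | h5
    · exact ⟨y2, x3, hF2, ht.symm, g02, g12, h5⟩
    · exact ⟨y2, c • x3, hF2.flip3 hc2, ht.symm, g02, g12, by rw [P.kn.odd, h5, neg_neg]⟩
  clear hsq q1 q2 q3
  obtain ⟨q1, q2, q3, e1, e2, e3⟩ := eqs_all hc2 hcf P hS hn hF'
  have g03 : DD χ χ' x0 y3 = -t := by
    rw [g01, g12, g23] at e2
    have h5 : t * (t + DD χ χ' x0 y3) = 0 := by linear_combination e2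
    linear_combination (mul_eq_zero.mp h5).resolve_left ht0
  have g13 : DD χ χ' x1 y3 = 0 := by
    rw [g02] at q2
    exact pow_eq_zero_iff (two_ne_zero) |>.mp (by rw [q2]; ring)
  have hcc : ∀ u : X, c • (c • u) = u := fun u => by rw [← mul_smul, hc2, one_smul]
  let v : ZMod 8 → X := ![x0, x1, y2, y3, c • x0, c • x1, c • y2, c • y3]
  have o1 := P.kn.odd
  have o2 := fun x y => P.kn.odd' hc2 x y
  have g10 : DD χ χ' x1 x0 = t := by rw [P.sym, g01]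
  have g20 : DD χ χ' y2 x0 = 0 := by rw [P.sym, g02]
  have g30 : DD χ χ' y3 x0 = -t := by rw [P.sym, g03]
  have g21 : DD χ χ' y2 x1 = t := by rw [P.sym, g12]
  have g31 : DD χ χ' y3 x1 = 0 := by rw [P.sym, g13]
  have g32 : DD χ χ' y3 y2 = t := by rw [P.sym, g23]
  have hv : ∀ i j : ZMod 8, DD χ χ' (v i) (v j) =
      t * (w8 (j - i) : ℂ) := by
    have w0 : ∀ i : ZMod 8, DD χ χ' (v 0) (v i) =
        t * (v0 i : ℂ) ∧
        DD χ χ' (v 1) (v i) = t * (v1 i : ℂ) ∧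
        DD χ χ' (v 2) (v i) = t * (v2 i : ℂ) ∧
        DD χ χ' (v 3) (v i) = t * (v3 i : ℂ) := by
      intro i
      fin_cases i
      · refine ⟨?_, ?_, ?_, ?_⟩
        · change DD χ χ' x0 x0 = t * ((0 : ℤ) : ℂ); rw [P.self]; push_cast; ring
        · change DD χ χ' x1 x0 = t * ((1 : ℤ) : ℂ); rw [g10]; push_cast; ring
        · change DD χ χ' y2 x0 = t * ((0 : ℤ) : ℂ); rw [g20]; push_cast; ring
        · change DD χ χ' y3 x0 = t * ((-1 : ℤ) : ℂ); rw [g30]; push_cast; ring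
      · refine ⟨?_, ?_, ?_, ?_⟩
        · change DD χ χ' x0 x1 = t * ((1 : ℤ) : ℂ); rw [g01]; push_cast; ring
        · change DD χ χ' x1 x1 = t * ((0 : ℤ) : ℂ); rw [P.self]; push_cast; ring
        · change DD χ χ' y2 x1 = t * ((1 : ℤ) : ℂ); rw [g21]; push_cast; ring
        · change DD χ χ' y3 x1 = t * ((0 : ℤ) : ℂ); rw [g31]; push_cast; ring
      · refine ⟨?_, ?_, ?_, ?_⟩
        · change DD χ χ' x0 y2 = t * ((0 : ℤ) : ℂ); rw [g02]; push_cast; ring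
        · change DD χ χ' x1 y2 = t * ((1 : ℤ) : ℂ); rw [g12]; push_cast; ring
        · change DD χ χ' y2 y2 = t * ((0 : ℤ) : ℂ); rw [P.self]; push_cast; ring
        · change DD χ χ' y3 y2 = t * ((1 : ℤ) : ℂ); rw [g32]; push_cast; ring
      · refine ⟨?_, ?_, ?_, ?_⟩
        · change DD χ χ' x0 y3 = t * ((-1 : ℤ) : ℂ); rw [g03]; push_cast; ring
        · change DD χ χ' x1 y3 = t * ((0 : ℤ) : ℂ); rw [g13]; push_cast; ring
        · change DD χ χ' y2 y3 = t * ((1 : ℤ) : ℂ); rw [g23]; push_cast; ring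
        · change DD χ χ' y3 y3 = t * ((0 : ℤ) : ℂ); rw [P.self]; push_cast; ring
      · refine ⟨?_, ?_, ?_, ?_⟩
        · change DD χ χ' x0 (c • x0) = t * ((0 : ℤ) : ℂ); rw [o1, P.self]; push_cast; ring
        · change DD χ χ' x1 (c • x0) = t * ((-1 : ℤ) : ℂ); rw [o1, g10]; push_cast; ring
        · change DD χ χ' y2 (c • x0) = t * ((0 : ℤ) : ℂ); rw [o1, g20]; push_cast; ring
        · change DD χ χ' y3 (c • x0) = t * ((1 : ℤ) : ℂ); rw [o1, g30]; push_cast; ring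
      · refine ⟨?_, ?_, ?_, ?_⟩
        · change DD χ χ' x0 (c • x1) = t * ((-1 : ℤ) : ℂ); rw [o1, g01]; push_cast; ring
        · change DD χ χ' x1 (c • x1) = t * ((0 : ℤ) : ℂ); rw [o1, P.self]; push_cast; ring
        · change DD χ χ' y2 (c • x1) = t * ((-1 : ℤ) : ℂ); rw [o1, g21]; push_cast; ring
        · change DD χ χ' y3 (c • x1) = t * ((0 : ℤ) : ℂ); rw [o1, g31]; push_cast; ring
      · refine ⟨?_, ?_, ?_, ?_⟩
        · change DD χ χ' x0 (c • y2) = t * ((0 : ℤ) : ℂ); rw [o1, g02]; push_cast; ring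
        · change DD χ χ' x1 (c • y2) = t * ((-1 : ℤ) : ℂ); rw [o1, g12]; push_cast; ring
        · change DD χ χ' y2 (c • y2) = t * ((0 : ℤ) : ℂ); rw [o1, P.self]; push_cast; ring
        · change DD χ χ' y3 (c • y2) = t * ((-1 : ℤ) : ℂ); rw [o1, g32]; push_cast; ring
      · refine ⟨?_, ?_, ?_, ?_⟩
        · change DD χ χ' x0 (c • y3) = t * ((1 : ℤ) : ℂ); rw [o1, g03]; push_cast; ring
        · change DD χ χ' x1 (c • y3) = t * ((0 : ℤ) : ℂ); rw [o1, g13]; push_cast; ring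
        · change DD χ χ' y2 (c • y3) = t * ((-1 : ℤ) : ℂ); rw [o1, g23]; push_cast; ring
        · change DD χ χ' y3 (c • y3) = t * ((0 : ℤ) : ℂ); rw [o1, P.self]; push_cast; ring
    intro i j
    obtain ⟨w0, w1, w2, w3⟩ := w0 j
    fin_cases i
    · exact w0.trans (congrArg (fun z : ℤ => t * (z : ℂ)) (t0 j)).symm
    · exact w1.trans (congrArg (fun z : ℤ => t * (z : ℂ)) (t1 j)).symm
    · exact w2.trans (congrArg (fun z : ℤ => t * (z : ℂ)) (t2 j)).symm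
    · exact w3.trans (congrArg (fun z : ℤ => t * (z : ℂ)) (t3 j)).symm
    · have h5 : DD χ χ' (c • v 0) (v j) = t * ((- v0 j : ℤ) : ℂ) := by
        rw [o2, w0]; push_cast; ring
      exact h5.trans (congrArg (fun z : ℤ => t * (z : ℂ)) (t4 j)).symm
    · have h5 : DD χ χ' (c • v 1) (v j) = t * ((- v1 j : ℤ) : ℂ) := by
        rw [o2, w1]; push_cast; ring
      exact h5.trans (congrArg (fun z : ℤ => t * (z : ℂ)) (t5 j)).symm
    · have h5 : DD χ χ' (c • v 2) (v j) = t * ((- v2 j : ℤ) : ℂ) := by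
        rw [o2, w2]; push_cast; ring
      exact h5.trans (congrArg (fun z : ℤ => t * (z : ℂ)) (t6 j)).symm
    · have h5 : DD χ χ' (c • v 3) (v j) = t * ((- v3 j : ℤ) : ℂ) := by
        rw [o2, w3]; push_cast; ring
      exact h5.trans (congrArg (fun z : ℤ => t * (z : ℂ)) (t7 j)).symm
  have hvR : ∀ i j : ZMod 8, DD χ χ' (v i) (v j) = t ↔ (j = i + 1 ∨ j = i - 1) := by
    intro i j
    rw [hv]
    rw [← w8_one i j]
    constructor
    · intro h6
      have h7 : ((w8 (j - i) : ℤ) : ℂ) = 1 := by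
        apply mul_left_cancel₀ ht0
        rw [h6, mul_one]
      exact_mod_cast h7
    · intro h6
      rw [h6, Int.cast_one, mul_one]
  have hinj : Function.Injective v := by
    intro i j hij
    have h5 : ∀ l : ZMod 8, (l = i + 1 ∨ l = i - 1) ↔ (l = j + 1 ∨ l = j - 1) := by
      intro l
      rw [← hvR, ← hvR, hij]
    exact nbr8 i j h5
  have hbij : Function.Bijective v := by
    rw [Fintype.bijective_iff_injective_and_card]
    exact ⟨hinj, by rw [hn]; rfl⟩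
  exact poly_of_adj (by norm_num) (Equiv.ofBijective v hbij) (fun x y => DD χ χ' x y = t)
    (fun g x y hxy => by rw [P.kn.inv]; exact hxy) (fun i j => hvR i j) (P.move _)

end oct

end Pool.Agent.U157.CD
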